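import Mathlib

/-! Simple polyhedra given by finitely many inequalities: faces, facets, and the partition of the
face poset induced by a generic objective. -/

namespace Pool.Agent.Lib.MP_68998a_co

open Module Finset
open scoped Classical

variable {α E : Type*} [DecidableEq α] [AddCommGroup E] [Module ℝ E]

def Feas (V : Finset α) (u : α → E) (w : E) (φ : Dual ℝ E) : Prop :=
  φ w = 1 ∧ ∀ p ∈ V, 0 ≤ φ (u p)

def Spans (u : α → E) (w : E) (S : Finset α) : Prop :=
  ∀ D : Dual ℝ E, D w = 0 → (∀ p ∈ S, D (u p) = 0) → D = 0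

def Face (V : Finset α) (u : α → E) (w : E) (G : Finset α) : Prop :=
  G ⊆ V ∧ ∃ φ, Feas V u w φ ∧ ∀ p ∈ G, φ (u p) = 0

def Facet (V : Finset α) (u : α → E) (w : E) (S : Finset α) : Prop :=
  Face V u w S ∧ Spans u w S

/-- every face has at most `d` elements and the space has dimension `d + 1` -/
structure Simple (V : Finset α) (u : α → E) (w : E) (d : ℕ) : Prop where
  fin : Module.Finite ℝ E
  dim : finrank ℝ E = d + 1
  le : ∀ G, Face V u w G → G.card ≤ d

/-- a generic objective, bounded on the polyhedron -/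
structure Obj (V : Finset α) (u : α → E) (w c : E) : Prop where
  bdd : ∀ D : Dual ℝ E, D w = 0 → D c < 0 → ∃ p ∈ V, D (u p) < 0
  gen : ∀ S ⊆ V, ¬ Spans u w S → ∃ D : Dual ℝ E, D w = 0 ∧ (∀ p ∈ S, D (u p) = 0) ∧ D c ≠ 0

variable {V : Finset α} {u : α → E} {w c : E} {d : ℕ}

theorem Face.mono {G H : Finset α} (h : Face V u w G) (hH : H ⊆ G) : Face V u w H := by
  obtain ⟨hG, φ, hφ, hz⟩ := h
  exact ⟨hH.trans hG, φ, hφ, fun p hp => hz p (hH hp)⟩

theorem Spans.mono {G H : Finset α} (h : Spans u w G) (hH : G ⊆ H) : Spans u w H :=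
  fun D hD hz => h D hD fun p hp => hz p (hH hp)

theorem not_spans_of_card_lt (_hfin : Module.Finite ℝ E) (hd : finrank ℝ E = d + 1) {S : Finset α}
    (hS : S.card < d) : ¬ Spans u w S := by
  intro h
  have h1 : (Submodule.span ℝ ((insert w (S.image u) : Finset E) : Set E)) < ⊤ := by
    apply lt_top_iff_ne_top.2
    intro ht
    have h2 := finrank_span_finset_le_card (R := ℝ) (insert w (S.image u))
    unfold Set.finrank at h2
    rw [ht, finrank_top, hd] at h2
    have h3 := card_insert_le w (S.image u)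
    have h4 := card_image_le (s := S) (f := u)
    omega
  obtain ⟨f, hf, hle⟩ := Submodule.exists_le_ker_of_lt_top _ h1
  apply hf
  apply h f
  · exact hle (Submodule.subset_span (by simp))
  · intro p hp
    exact hle (Submodule.subset_span (by simp; exact Or.inr ⟨p, hp, rfl⟩))

theorem Facet.card_eq (hs : Simple V u w d) {S : Finset α} (h : Facet V u w S) : S.card = d := by
  apply le_antisymm (hs.le S h.1)
  by_contra hlt
  exact not_spans_of_card_lt hs.fin hs.dim (not_le.1 hlt) h.2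

theorem Facet.mem_of_zero (hs : Simple V u w d) {S : Finset α} (h : Facet V u w S)
    {φ : Dual ℝ E} (hφ : Feas V u w φ) (hz : ∀ p ∈ S, φ (u p) = 0) {q : α} (hq : q ∈ V)
    (hq0 : φ (u q) = 0) : q ∈ S := by
  by_contra hn
  have h1 : Face V u w (insert q S) :=
    ⟨insert_subset hq h.1.1, φ, hφ, fun p hp => by
      rcases mem_insert.1 hp with rfl | hp
      · exact hq0
      · exact hz p hp⟩
  have h2 := hs.le _ h1
  rw [card_insert_of_notMem hn, h.card_eq hs] at h2
  omega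

theorem Spans.unique {S : Finset α} (h : Spans u w S) {φ ψ : Dual ℝ E} (hw : φ w = ψ w)
    (hz : ∀ p ∈ S, φ (u p) = ψ (u p)) : φ = ψ := by
  have := h (φ - ψ) (by simp [hw]) (fun p hp => by simp [hz p hp])
  exact sub_eq_zero.1 this

/-- the supporting functional of a face -/
noncomputable def fn (V : Finset α) (u : α → E) (w : E) (S : Finset α) : Dual ℝ E :=
  if h : Face V u w S then h.2.choose else 0

theorem Face.fn_feas {S : Finset α} (h : Face V u w S) : Feas V u w (fn V u w S) := by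
  rw [fn, dif_pos h]; exact h.2.choose_spec.1

theorem Face.fn_zero {S : Finset α} (h : Face V u w S) : ∀ p ∈ S, fn V u w S (u p) = 0 := by
  rw [fn, dif_pos h]; exact h.2.choose_spec.2

theorem Facet.fn_eq {S : Finset α} (h : Facet V u w S) {φ : Dual ℝ E} (hw : φ w = 1)
    (hz : ∀ p ∈ S, φ (u p) = 0) : fn V u w S = φ :=
  h.2.unique (by rw [h.1.fn_feas.1, hw]) fun p hp => by rw [h.1.fn_zero p hp, hz p hp]

theorem Facet.fn_pos (hs : Simple V u w d) {S : Finset α} (h : Facet V u w S) {q : α} (hq : q ∈ V)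
    (hn : q ∉ S) : 0 < fn V u w S (u q) :=
  lt_of_le_of_ne (h.1.fn_feas.2 q hq) fun h0 =>
    hn (h.mem_of_zero hs h.1.fn_feas h.1.fn_zero hq h0.symm)

/-- coordinate functional -/
def IsCo (u : α → E) (w : E) (S : Finset α) (p : α) (D : Dual ℝ E) : Prop :=
  D w = 0 ∧ D (u p) = 1 ∧ ∀ q ∈ S, q ≠ p → D (u q) = 0

noncomputable def co (u : α → E) (w : E) (S : Finset α) (p : α) : Dual ℝ E :=
  if h : ∃ D, IsCo u w S p D then h.choose else 0

theorem isCo_co (hfin : Module.Finite ℝ E) (hd : finrank ℝ E = d + 1) {S : Finset α}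
    (h : Spans u w S) (hc : S.card = d) {p : α} (hp : p ∈ S) : IsCo u w S p (co u w S p) := by
  have hex : ∃ D, IsCo u w S p D := by
    have h1 : ¬ Spans u w (S.erase p) := by
      apply not_spans_of_card_lt hfin hd
      rw [card_erase_of_mem hp]
      have := card_pos.2 ⟨p, hp⟩
      omega
    unfold Spans at h1
    push Not at h1
    obtain ⟨D, hDw, hDz, hD⟩ := h1
    have h2 : D (u p) ≠ 0 := by
      intro h0
      apply hD
      apply h D hDw
      intro q hq
      by_cases hqp : q = p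
      · rw [hqp]; exact h0
      · exact hDz q (mem_erase.2 ⟨hqp, hq⟩)
    refine ⟨(D (u p))⁻¹ • D, by simp [hDw], by simp [h2], fun q hq hqp => ?_⟩
    simp [hDz q (mem_erase.2 ⟨hqp, hq⟩)]
  rw [co, dif_pos hex]
  exact hex.choose_spec

theorem Facet.isCo (hs : Simple V u w d) {S : Finset α} (h : Facet V u w S) {p : α} (hp : p ∈ S) :
    IsCo u w S p (co u w S p) :=
  isCo_co hs.fin hs.dim h.2 (h.card_eq hs) hp

theorem expand (hfin : Module.Finite ℝ E) (hd : finrank ℝ E = d + 1) {S : Finset α}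
    (h : Spans u w S) (hc : S.card = d) (ψ : Dual ℝ E) (hψ : ψ w = 0) (x : E) :
    ψ x = ∑ p ∈ S, ψ (u p) * co u w S p x := by
  have h1 : ψ = ∑ p ∈ S, ψ (u p) • co u w S p := by
    apply h.unique
    · rw [hψ, LinearMap.sum_apply]
      symm
      apply sum_eq_zero
      intro p hp
      simp [(isCo_co hfin hd h hc hp).1]
    · intro q hq
      rw [LinearMap.sum_apply, sum_eq_single q]
      · simp [(isCo_co hfin hd h hc hq).2.1]
      · intro p hp hpq
        simp [(isCo_co hfin hd h hc hp).2.2 q hq (Ne.symm hpq)]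
      · intro hn; exact absurd hq hn
  conv_lhs => rw [h1]
  simp [LinearMap.sum_apply]

theorem Facet.co_ne (hs : Simple V u w d) (ho : Obj V u w c) {S : Finset α} (h : Facet V u w S)
    {p : α} (hp : p ∈ S) : co u w S p c ≠ 0 := by
  have h1 : ¬ Spans u w (S.erase p) := by
    apply not_spans_of_card_lt hs.fin hs.dim
    rw [card_erase_of_mem hp, h.card_eq hs]
    have := card_pos.2 ⟨p, hp⟩
    rw [h.card_eq hs] at this
    omega
  obtain ⟨D, hDw, hDz, hD⟩ := ho.gen _ ((erase_subset _ _).trans h.1.1) h1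
  intro h0
  apply hD
  rw [expand hs.fin hs.dim h.2 (h.card_eq hs) D hDw c]
  apply sum_eq_zero
  intro q hq
  by_cases hqp : q = p
  · rw [hqp, h0, mul_zero]
  · rw [hDz q (mem_erase.2 ⟨hqp, hq⟩), zero_mul]

/-- the set of vertices of a facet with negative coordinate -/
noncomputable def Ng (u : α → E) (w c : E) (S : Finset α) : Finset α :=
  S.filter fun p => co u w S p c < 0

theorem Ng_subset (S : Finset α) : Ng u w c S ⊆ S := filter_subset _ _

theorem Facet.Ng_neg (hs : Simple V u w d) (ho : Obj V u w c) {S : Finset α}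
    (h : Facet V u w S) : Ng u w (-c) S = S \ Ng u w c S := by
  ext p
  simp only [Ng, mem_filter, mem_sdiff, map_neg, not_and, not_lt]
  constructor
  · rintro ⟨hp, h1⟩
    exact ⟨hp, fun _ => by linarith⟩
  · rintro ⟨hp, h1⟩
    have := lt_of_le_of_ne (h1 hp) (h.co_ne hs ho hp).symm
    exact ⟨hp, by linarith⟩

/-- ratio test -/
theorem ratio {φ D : Dual ℝ E} (hφ : Feas V u w φ) (hD : D w = 0) (hex : ∃ p ∈ V, D (u p) < 0) :
    ∃ s : ℝ, 0 ≤ s ∧ Feas V u w (φ + s • D) ∧ ∃ p ∈ V, D (u p) < 0 ∧ (φ + s • D) (u p) = 0 := by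
  obtain ⟨p0, hp0, hp0'⟩ := hex
  obtain ⟨p, hp, hmin⟩ := exists_min_image (V.filter fun p => D (u p) < 0)
    (fun p => φ (u p) / (-D (u p))) ⟨p0, mem_filter.2 ⟨hp0, hp0'⟩⟩
  obtain ⟨hpV, hpD⟩ := mem_filter.1 hp
  have hs : 0 ≤ φ (u p) / (-D (u p)) := div_nonneg (hφ.2 p hpV) (by linarith)
  refine ⟨φ (u p) / (-D (u p)), hs, ⟨by simp [hφ.1, hD], fun q hq => ?_⟩, p, hpV, hpD, ?_⟩
  · simp only [LinearMap.add_apply, LinearMap.smul_apply, smul_eq_mul]
    by_cases hqD : D (u q) < 0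
    · have h1 := hmin q (mem_filter.2 ⟨hq, hqD⟩)
      rw [le_div_iff₀ (by linarith)] at h1
      linarith
    · have := mul_nonneg hs (not_lt.1 hqD)
      linarith [hφ.2 q hq]
  · simp only [LinearMap.add_apply, LinearMap.smul_apply, smul_eq_mul]
    have : D (u p) ≠ 0 := hpD.ne
    field_simp
    ring

/-- small perturbations keep strict positivity -/
theorem perturb (W : Finset α) (φ D : Dual ℝ E) (hφ : ∀ p ∈ W, 0 < φ (u p)) :
    ∃ s : ℝ, 0 < s ∧ ∀ p ∈ W, 0 < (φ + s • D) (u p) := by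
  have h1 : ∀ p ∈ W, ∀ᶠ s in nhds (0 : ℝ), 0 < (φ + s • D) (u p) := by
    intro p hp
    have hc : Continuous fun s : ℝ => φ (u p) + s * D (u p) := by fun_prop
    have := hc.continuousAt (x := 0).eventually (lt_mem_nhds (by simpa using hφ p hp))
    simpa using this
  have h2 := (Filter.eventually_all_finset W).2 h1
  obtain ⟨s, hs, hs'⟩ := ((h2.filter_mono nhdsWithin_le_nhds).and
    (self_mem_nhdsWithin (s := Set.Ioi (0 : ℝ)))).exists
  exact ⟨s, hs', hs⟩

/-- every feasible functional can be moved to a vertex without increasing the objective -/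
theorem to_vertex (ho : Obj V u w c) : ∀ (k : ℕ) (φ : Dual ℝ E), Feas V u w φ →
    (V.filter fun p => φ (u p) ≠ 0).card = k →
    ∃ S ψ, Facet V u w S ∧ Feas V u w ψ ∧ (∀ p ∈ S, ψ (u p) = 0) ∧
      (∀ p ∈ V, φ (u p) = 0 → p ∈ S) ∧ ψ c ≤ φ c := by
  intro k
  induction k using Nat.strong_induction_on with
  | _ k ih =>
    intro φ hφ hk
    set Z := V.filter fun p => φ (u p) = 0 with hZ
    have hZV : Z ⊆ V := filter_subset _ _
    have hZz : ∀ p ∈ Z, φ (u p) = 0 := fun p hp => (mem_filter.1 hp).2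
    by_cases hsp : Spans u w Z
    · exact ⟨Z, φ, ⟨⟨hZV, φ, hφ, hZz⟩, hsp⟩, hφ, hZz, fun p hp h0 => mem_filter.2 ⟨hp, h0⟩, le_rfl⟩
    · obtain ⟨D0, hDw0, hDz0, hD0⟩ := ho.gen Z hZV hsp
      obtain ⟨D, hDw, hDz, hD⟩ : ∃ D : Dual ℝ E, D w = 0 ∧ (∀ p ∈ Z, D (u p) = 0) ∧ D c < 0 := by
        rcases lt_or_gt_of_ne hD0 with h | h
        · exact ⟨D0, hDw0, hDz0, h⟩
        · exact ⟨-D0, by simp [hDw0], fun p hp => by simp [hDz0 p hp], by simpa using h⟩
      obtain ⟨s, hs, hfe, p, hpV, hpD, hp0⟩ := ratio hφ hDw (ho.bdd D hDw hD)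
      have hzz : ∀ q ∈ V, φ (u q) = 0 → (φ + s • D) (u q) = 0 := by
        intro q hq h0
        simp [h0, hDz q (mem_filter.2 ⟨hq, h0⟩)]
      have hlt : (V.filter fun q => (φ + s • D) (u q) ≠ 0).card < k := by
        rw [← hk]
        apply card_lt_card
        refine ⟨fun q hq => ?_, fun hsub => ?_⟩
        · obtain ⟨hq1, hq2⟩ := mem_filter.1 hq
          exact mem_filter.2 ⟨hq1, fun h0 => hq2 (hzz q hq1 h0)⟩
        · have hp1 : φ (u p) ≠ 0 := fun h0 => hpD.ne (hDz p (mem_filter.2 ⟨hpV, h0⟩))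
          exact (mem_filter.1 (hsub (mem_filter.2 ⟨hpV, hp1⟩))).2 hp0
      obtain ⟨S, ψ, hS, hψ, hψz, hsub, hle⟩ := ih _ hlt (φ + s • D) hfe rfl
      refine ⟨S, ψ, hS, hψ, hψz, fun q hq h0 => hsub q hq (hzz q hq h0), hle.trans ?_⟩
      have := mul_nonneg hs (neg_nonneg.2 hD.le)
      simp only [LinearMap.add_apply, LinearMap.smul_apply, smul_eq_mul]
      linarith

theorem to_vertex' (ho : Obj V u w c) {φ : Dual ℝ E} (hφ : Feas V u w φ) {G : Finset α}
    (hG : G ⊆ V) (hz : ∀ p ∈ G, φ (u p) = 0) :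
    ∃ S, Facet V u w S ∧ G ⊆ S ∧ fn V u w S c ≤ φ c := by
  obtain ⟨S, ψ, hS, hψ, hψz, hsub, hle⟩ := to_vertex ho _ φ hφ rfl
  refine ⟨S, hS, fun p hp => hsub p (hG hp) (hz p hp), ?_⟩
  rw [hS.fn_eq hψ.1 hψz]
  exact hle

/-- moving off a vertex along an edge with negative coordinate -/
theorem Facet.improve (hs : Simple V u w d) (ho : Obj V u w c) {S : Finset α} (h : Facet V u w S)
    {p : α} (hp : p ∈ Ng u w c S) :
    ∃ S', Facet V u w S' ∧ S.erase p ⊆ S' ∧ fn V u w S' c < fn V u w S c := by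
  obtain ⟨hpS, hpc⟩ := mem_filter.1 hp
  obtain ⟨hco1, hco2, hco3⟩ := h.isCo hs hpS
  obtain ⟨s, hs0, hpos⟩ := perturb (u := u) (V \ S) (fn V u w S) (co u w S p)
    (fun q hq => h.fn_pos hs (mem_sdiff.1 hq).1 (mem_sdiff.1 hq).2)
  have hfe : Feas V u w (fn V u w S + s • co u w S p) := by
    refine ⟨by simp [h.1.fn_feas.1, hco1], fun q hq => ?_⟩
    by_cases hqS : q ∈ S
    · by_cases hqp : q = p
      · subst hqp
        simp [h.1.fn_zero q hqS, hco2, hs0.le]
      · simp [h.1.fn_zero q hqS, hco3 q hqS hqp]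
    · exact (hpos q (mem_sdiff.2 ⟨hq, hqS⟩)).le
  obtain ⟨S', hS', hsub, hle⟩ := to_vertex' ho hfe ((erase_subset p S).trans h.1.1) (fun q hq => by
    obtain ⟨hqp, hqS⟩ := mem_erase.1 hq
    simp [h.1.fn_zero q hqS, hco3 q hqS hqp])
  refine ⟨S', hS', hsub, hle.trans_lt ?_⟩
  have := mul_pos hs0 (neg_pos.2 hpc)
  simp only [LinearMap.add_apply, LinearMap.smul_apply, smul_eq_mul]
  linarith

/-- the facets as a finset -/
noncomputable def facets (V : Finset α) (u : α → E) (w : E) : Finset (Finset α) :=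
  V.powerset.filter (Facet V u w)

theorem mem_facets {S : Finset α} : S ∈ facets V u w ↔ Facet V u w S := by
  simp only [facets, mem_filter, mem_powerset]
  exact ⟨fun h => h.2, fun h => ⟨h.1.1, h⟩⟩

theorem Face.exists_facet (hs : Simple V u w d) (ho : Obj V u w c) {G : Finset α}
    (h : Face V u w G) : ∃ S, Facet V u w S ∧ G ⊆ S ∧ Ng u w c S ⊆ G := by
  obtain ⟨hG, φ, hφ, hz⟩ := h
  obtain ⟨S0, hS0, hsub0, -⟩ := to_vertex' ho hφ hG hz
  obtain ⟨S, hS, hmin⟩ := exists_min_image ((facets V u w).filter fun S => G ⊆ S)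
    (fun S => fn V u w S c) ⟨S0, mem_filter.2 ⟨mem_facets.2 hS0, hsub0⟩⟩
  obtain ⟨hS1, hS2⟩ := mem_filter.1 hS
  rw [mem_facets] at hS1
  refine ⟨S, hS1, hS2, fun p hp => ?_⟩
  by_contra hpG
  obtain ⟨S', hS', hsub, hlt⟩ := hS1.improve hs ho hp
  have := hmin S' (mem_filter.2 ⟨mem_facets.2 hS', fun q hq =>
    hsub (mem_erase.2 ⟨fun e => hpG (e ▸ hq), hS2 hq⟩)⟩)
  linarith

/-- uniqueness; only the non-vanishing of the coordinates is used -/
theorem facet_unique (hs : Simple V u w d) {S S' G : Finset α}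
    (h : Facet V u w S) (h' : Facet V u w S')
    (hne' : ∀ p ∈ S', co u w S' p c ≠ 0) (hG : G ⊆ S) (hG' : G ⊆ S')
    (hN : Ng u w c S ⊆ G) (hN' : Ng u w c S' ⊆ G) : S = S' := by
  have key : ∀ {S S' : Finset α}, Facet V u w S → Facet V u w S' → G ⊆ S → G ⊆ S' →
      Ng u w c S' ⊆ G → ∀ p ∈ S', 0 ≤ fn V u w S (u p) * co u w S' p c := by
    intro S S' h h' hG hG' hN' p hp
    by_cases hpG : p ∈ G
    · rw [h.1.fn_zero p (hG hpG), zero_mul]
    · apply mul_nonneg (h.1.fn_feas.2 p (h'.1.1 hp))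
      by_contra hlt
      exact hpG (hN' (mem_filter.2 ⟨hp, not_le.1 hlt⟩))
  have ex : ∀ {S S' : Finset α}, Facet V u w S → Facet V u w S' →
      fn V u w S c - fn V u w S' c = ∑ p ∈ S', fn V u w S (u p) * co u w S' p c := by
    intro S S' h h'
    have := expand hs.fin hs.dim h'.2 (h'.card_eq hs) (fn V u w S - fn V u w S')
      (by simp [h.1.fn_feas.1, h'.1.fn_feas.1]) c
    rw [LinearMap.sub_apply] at this
    rw [this]
    apply sum_congr rfl
    intro p hp
    simp [h'.1.fn_zero p hp]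
  have e1 := ex h h'
  have e2 := ex h' h
  have n1 := sum_nonneg (key h h' hG hG' hN')
  have n2 := sum_nonneg (key h' h hG' hG hN)
  have z1 : ∑ p ∈ S', fn V u w S (u p) * co u w S' p c = 0 := by linarith
  rw [sum_eq_zero_iff_of_nonneg (key h h' hG hG' hN')] at z1
  have hsub : S' ⊆ S := by
    intro p hp
    have := z1 p hp
    rcases mul_eq_zero.1 this with h0 | h0
    · exact h.mem_of_zero hs h.1.fn_feas h.1.fn_zero (h'.1.1 hp) h0
    · exact absurd h0 (hne' p hp)
  exact (eq_of_subset_of_card_le hsub (by rw [h.card_eq hs, h'.card_eq hs])).symm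

/-- faces with `k` elements containing `B` -/
noncomputable def facesK (V : Finset α) (u : α → E) (w : E) (B : Finset α) (k : ℕ) :
    Finset (Finset α) :=
  (V.powersetCard k).filter fun G => Face V u w G ∧ B ⊆ G

/-- size of an interval level -/
def cnt (d j k : ℕ) : ℕ := if j ≤ k then (d - j).choose (k - j) else 0

theorem card_interval {S M : Finset α} (hM : M ⊆ S) (k : ℕ) :
    ((S.powersetCard k).filter (M ⊆ ·)).card = cnt S.card M.card k := by
  unfold cnt
  split_ifs with h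
  · exact card_filter_powersetCard_subset M S k hM h
  · rw [card_eq_zero, filter_eq_empty_iff]
    intro G hG hsub
    have := card_le_card hsub
    rw [(mem_powersetCard.1 hG).2] at this
    exact h this

theorem card_facesK (hs : Simple V u w d) (ho : Obj V u w c) (B : Finset α) (k : ℕ) :
    (facesK V u w B k).card =
      ∑ S ∈ (facets V u w).filter (B ⊆ ·), cnt d (Ng u w c S ∪ B).card k := by
  have h1 : facesK V u w B k = ((facets V u w).filter (B ⊆ ·)).biUnion
      fun S => (S.powersetCard k).filter ((Ng u w c S ∪ B) ⊆ ·) := by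
    ext G
    simp only [facesK, mem_filter, mem_powersetCard, mem_biUnion, mem_facets, union_subset_iff]
    constructor
    · rintro ⟨⟨-, hk⟩, hF, hB⟩
      obtain ⟨S, hS, hGS, hN⟩ := hF.exists_facet hs ho
      exact ⟨S, ⟨hS, hB.trans hGS⟩, ⟨hGS, hk⟩, hN, hB⟩
    · rintro ⟨S, ⟨hS, -⟩, ⟨hGS, hk⟩, -, hB⟩
      exact ⟨⟨hGS.trans hS.1.1, hk⟩, hS.1.mono hGS, hB⟩
  rw [h1, card_biUnion]
  · apply sum_congr rfl
    intro S hS
    obtain ⟨hS1, hS2⟩ := mem_filter.1 hS
    rw [mem_facets] at hS1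
    rw [card_interval (union_subset (Ng_subset S) hS2), hS1.card_eq hs]
  · intro S hS S' hS' hne
    simp only [coe_filter, Set.mem_ofPred_eq, mem_facets] at hS hS'
    rw [Function.onFun, disjoint_left]
    intro G hG hG'
    simp only [mem_filter, mem_powersetCard, union_subset_iff] at hG hG'
    exact hne (facet_unique hs hS.1 hS'.1
      (fun p hp => hS'.1.co_ne hs ho hp) hG.1.1 hG'.1.1 hG.2.1 hG'.2.1)

/-- a subset of a facet is the exact zero set of a feasible functional -/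
theorem Facet.exact (hs : Simple V u w d) {S G : Finset α} (h : Facet V u w S) (hG : G ⊆ S) :
    ∃ φ : Dual ℝ E, φ w = 1 ∧ (∀ p ∈ G, φ (u p) = 0) ∧ ∀ p ∈ V, p ∉ G → 0 < φ (u p) := by
  obtain ⟨s, hs0, hpos⟩ := perturb (u := u) (V \ S) (fn V u w S) (∑ q ∈ S \ G, co u w S q)
    (fun q hq => h.fn_pos hs (mem_sdiff.1 hq).1 (mem_sdiff.1 hq).2)
  refine ⟨fn V u w S + s • ∑ q ∈ S \ G, co u w S q, ?_, fun p hp => ?_, fun p hp hpG => ?_⟩
  · have : ∑ q ∈ S \ G, co u w S q w = 0 :=
      sum_eq_zero fun q hq => (h.isCo hs (mem_sdiff.1 hq).1).1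
    simp [h.1.fn_feas.1, LinearMap.sum_apply, this]
  · have : ∑ q ∈ S \ G, co u w S q (u p) = 0 :=
      sum_eq_zero fun q hq => (h.isCo hs (mem_sdiff.1 hq).1).2.2 p (hG hp)
        fun e => (mem_sdiff.1 hq).2 (e ▸ hp)
    simp [h.1.fn_zero p (hG hp), LinearMap.sum_apply, this]
  · by_cases hpS : p ∈ S
    · have : ∑ q ∈ S \ G, co u w S q (u p) = 1 := by
        rw [sum_eq_single p]
        · exact (h.isCo hs hpS).2.1
        · intro q hq hqp
          exact (h.isCo hs (mem_sdiff.1 hq).1).2.2 p hpS (Ne.symm hqp)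
        · intro hn; exact absurd (mem_sdiff.2 ⟨hpS, hpG⟩) hn
      simp [h.1.fn_zero p hpS, LinearMap.sum_apply, this, hs0]
    · exact hpos p (mem_sdiff.2 ⟨hp, hpS⟩)

/-- a positive vector avoiding finitely many hyperplanes -/
theorem exists_pos_avoid {ι : Type*} (V : Finset α) (I : Finset ι) (f : ι → α → ℝ)
    (hf : ∀ i ∈ I, ∃ p ∈ V, f i p ≠ 0) :
    ∃ μ : α → ℝ, (∀ p ∈ V, 0 < μ p) ∧ ∀ i ∈ I, ∑ p ∈ V, μ p * f i p ≠ 0 := by
  induction I using Finset.induction_on with
  | empty => exact ⟨fun _ => 1, fun _ _ => one_pos, by simp⟩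
  | insert i I hi ih =>
    obtain ⟨μ, hμ, hI⟩ := ih fun j hj => hf j (mem_insert_of_mem hj)
    obtain ⟨p, hp, hfp⟩ := hf i (mem_insert_self _ _)
    have hsum : ∀ (s : ℝ) (j : ι), ∑ q ∈ V, (μ q + if q = p then s else 0) * f j q =
        ∑ q ∈ V, μ q * f j q + s * f j p := by
      intro s j
      simp only [add_mul, sum_add_distrib, ite_mul, zero_mul]
      rw [sum_ite_eq' V p, if_pos hp]
    have hfin : (⋃ j ∈ (insert i I : Finset ι),
        {s : ℝ | ∑ q ∈ V, μ q * f j q + s * f j p = 0}).Finite := by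
      apply Set.Finite.biUnion (finite_toSet _)
      intro j hj
      apply Set.Subsingleton.finite
      intro s hs t ht
      simp only [Set.mem_ofPred_eq] at hs ht
      have hne : f j p ≠ 0 := by
        rcases mem_insert.1 (mem_coe.1 hj) with rfl | hj'
        · exact hfp
        · intro h0
          rw [h0, mul_zero, add_zero] at hs
          exact hI j hj' hs
      have : (s - t) * f j p = 0 := by linarith
      rcases mul_eq_zero.1 this with h | h
      · linarith
      · exact absurd h hne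
    obtain ⟨s, hs, hs'⟩ := (Set.Ioi_infinite (0 : ℝ)).exists_notMem_finite hfin
    refine ⟨fun q => μ q + if q = p then s else 0, fun q hq => ?_, fun j hj => ?_⟩
    · have := hμ q hq
      have hs0 : 0 < s := hs
      dsimp only
      split_ifs <;> linarith
    · rw [hsum]
      intro h0
      apply hs'
      simp only [Set.mem_iUnion]
      exact ⟨j, hj, h0⟩

theorem exists_obj (hV : Spans u w V) :
    ∃ μ : α → ℝ, (∀ p ∈ V, 0 < μ p) ∧ Obj V u w (∑ p ∈ V, μ p • u p) := by
  have h1 : ∀ S : Finset α, ∃ D : Dual ℝ E, ¬ Spans u w S →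
      D w = 0 ∧ (∀ p ∈ S, D (u p) = 0) ∧ D ≠ 0 := by
    intro S
    by_cases h : Spans u w S
    · exact ⟨0, fun h' => absurd h h'⟩
    · have h' := h
      unfold Spans at h'
      push Not at h'
      obtain ⟨D, hD⟩ := h'
      exact ⟨D, fun _ => hD⟩
  choose D hD using h1
  obtain ⟨μ, hμ, hI⟩ := exists_pos_avoid V (V.powerset.filter fun S => ¬ Spans u w S)
    (fun S p => D S (u p)) (fun S hS => by
      obtain ⟨h1, h2, h3⟩ := hD S (mem_filter.1 hS).2
      by_contra hn
      push Not at hn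
      exact h3 (hV _ h1 hn))
  refine ⟨μ, hμ, ⟨fun D' _ hD' => ?_, fun S hS hn => ?_⟩⟩
  · by_contra hn
    push Not at hn
    rw [map_sum] at hD'
    have : 0 ≤ ∑ p ∈ V, D' (μ p • u p) := sum_nonneg fun p hp => by
      rw [map_smul, smul_eq_mul]; exact mul_nonneg (hμ p hp).le (hn p hp)
    linarith
  · obtain ⟨h1, h2, -⟩ := hD S hn
    refine ⟨D S, h1, h2, ?_⟩
    have := hI S (mem_filter.2 ⟨mem_powerset.2 hS, hn⟩)
    simpa [map_sum] using this

end Pool.Agent.Lib.MP_68998a_co
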