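import Pool.Agent.Lib.MP_68998a_co.Insert

/-! Points on the moment curve and one far point: the maximal configurations. -/

namespace Pool.Agent.Lib.MP_68998a_co

open Module Finset Filter Topology
open scoped Classical RealInnerProductSpace

noncomputable def vec (a b c : ℝ) : P := !₂[a, b, c]

theorem inner_vec (a b c x y z : ℝ) : ⟪vec a b c, vec x y z⟫ = a * x + b * y + c * z := by
  simp [vec, PiLp.inner_apply, Fin.sum_univ_three]
  ring

theorem exists_vec (p : P) : ∃ a b c, p = vec a b c :=
  ⟨p 0, p 1, p 2, by ext i; fin_cases i <;> simp [vec]⟩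

theorem vec_zero : vec 0 0 0 = 0 := by ext i; fin_cases i <;> simp [vec]

/-- the moment curve -/
noncomputable def mom (t : ℝ) : P := vec t (t ^ 2) (t ^ 3)

theorem mom_inj : Function.Injective mom := fun s t h => by
  simpa [mom, vec] using congrArg (fun p : P => p 0) h

theorem mkf_mom (b a0 a1 a2 g t : ℝ) : mkf b (vec a0 a1 a2) g (up (mom t)) =
    b + a0 * t + a1 * t ^ 2 + a2 * t ^ 3 + g * (t ^ 2 + t ^ 4 + t ^ 6) := by
  rw [mkf_up, ← real_inner_self_eq_norm_sq, mom, inner_vec, inner_vec]
  ring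

/-- plane through three points of the curve -/
noncomputable def pl (a b c : ℝ) : Dual ℝ E5 :=
  mkf (-(a * b * c)) (vec (a * b + a * c + b * c) (-(a + b + c)) 1) 0

theorem pl_wi (a b c : ℝ) : pl a b c wi = 0 := mkf_wi _ _ _

theorem pl_mom (a b c t : ℝ) : pl a b c (up (mom t)) = (t - a) * (t - b) * (t - c) := by
  rw [pl, mkf_mom]; ring

/-- the positive cofactor -/
def cof (a b c d t : ℝ) : ℝ :=
  t ^ 2 + (a + b + c + d) * t +
    (1 + a ^ 2 + b ^ 2 + c ^ 2 + d ^ 2 + a * b + a * c + a * d + b * c + b * d + c * d)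

theorem cof_pos {a b c d t : ℝ} (ha : 0 < a) (hb : 0 < b) (hc : 0 < c) (hd : 0 < d) (ht : 0 < t) :
    0 < cof a b c d t := by
  unfold cof; positivity

theorem exists_sph (a b c d : ℝ) : ∃ φ : Dual ℝ E5, φ wi = 1 ∧
    ∀ t, φ (up (mom t)) = (t - a) * (t - b) * ((t - c) * (t - d)) * cof a b c d t := by
  set e1 := a + b + c + d
  set e2 := a * b + a * c + a * d + b * c + b * d + c * d
  set e3 := a * b * c + a * b * d + a * c * d + b * c * d
  set e4 := a * b * c * d
  set r := 1 + e1 ^ 2 - e2
  refine ⟨mkf (e4 * r) (vec (e4 * e1 - e3 * r) (e4 - e3 * e1 + e2 * r - 1)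
    (-e3 + e2 * e1 - e1 * r)) 1, mkf_wi _ _ _, fun t => ?_⟩
  rw [mkf_mom]
  simp only [cof, r, e1, e2, e3, e4]
  ring

/-- sphere through four points of the curve -/
noncomputable def sph (a b c d : ℝ) : Dual ℝ E5 := (exists_sph a b c d).choose

theorem sph_wi (a b c d : ℝ) : sph a b c d wi = 1 := (exists_sph a b c d).choose_spec.1

theorem sph_mom (a b c d t : ℝ) :
    sph a b c d (up (mom t)) = (t - a) * (t - b) * ((t - c) * (t - d)) * cof a b c d t :=
  (exists_sph a b c d).choose_spec.2 t

theorem spans_mom {X : Finset ℝ} (hc : X.card = 4) : Spans up wi (X.image mom) := by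
  obtain ⟨x1, x2, x3, x4, h12, h13, h14, h23, h24, h34, rfl⟩ := card_eq_four.1 hc
  intro D hD hz
  obtain ⟨b, a, g, rfl⟩ := exists_mkf D
  obtain ⟨a0, a1, a2, rfl⟩ := exists_vec a
  rw [mkf_wi] at hD
  subst hD
  have e1 := hz (mom x1) (mem_image_of_mem _ (by simp))
  have e2 := hz (mom x2) (mem_image_of_mem _ (by simp))
  have e3 := hz (mom x3) (mem_image_of_mem _ (by simp))
  have e4 := hz (mom x4) (mem_image_of_mem _ (by simp))
  rw [mkf_mom] at e1 e2 e3 e4
  have g : ∀ {s t : ℝ}, s ≠ t →
      b + a0 * s + a1 * s ^ 2 + a2 * s ^ 3 + 0 * (s ^ 2 + s ^ 4 + s ^ 6) = 0 →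
      b + a0 * t + a1 * t ^ 2 + a2 * t ^ 3 + 0 * (t ^ 2 + t ^ 4 + t ^ 6) = 0 →
      a0 + a1 * (s + t) + a2 * (s ^ 2 + s * t + t ^ 2) = 0 := by
    intro s t hst h1 h2
    apply mul_left_cancel₀ (sub_ne_zero.2 hst)
    linear_combination h1 - h2
  have g12 := g h12 e1 e2
  have g13 := g h13 e1 e3
  have g14 := g h14 e1 e4
  have k3 : a1 + a2 * (x1 + x2 + x3) = 0 := by
    apply mul_left_cancel₀ (sub_ne_zero.2 h23)
    linear_combination g12 - g13
  have k4 : a1 + a2 * (x1 + x2 + x4) = 0 := by
    apply mul_left_cancel₀ (sub_ne_zero.2 h24)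
    linear_combination g12 - g14
  have z2 : a2 = 0 := by
    apply mul_left_cancel₀ (sub_ne_zero.2 h34)
    linear_combination k3 - k4
  have z1 : a1 = 0 := by rw [z2] at k3; linarith
  have z0 : a0 = 0 := by rw [z2, z1] at g12; linarith
  have zb : b = 0 := by rw [z2, z1, z0] at e1; linarith
  exact mkf_eq_zero zb (by rw [z0, z1, z2, vec_zero]) rfl

theorem nfc_mom (X : Finset ℝ) : NFC (X.image mom) := by
  intro S hS hc
  obtain ⟨Y, -, rfl⟩ := subset_image_iff.1 hS
  rw [card_image_of_injective _ mom_inj] at hc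
  exact spans_mom hc

theorem adm_mom {X : Finset ℝ} (h4 : 4 ≤ X.card) (hX : ∀ x ∈ X, 0 < x) : Adm (X.image mom) := by
  constructor
  · obtain ⟨Y, hY, hc⟩ := exists_subset_card_eq h4
    exact (spans_mom hc).mono (image_subset_image hY)
  · intro S hS φ hφ hz
    obtain ⟨Y, hY, rfl⟩ := subset_image_iff.1 hS
    rw [card_image_of_injective _ mom_inj]
    by_contra hn
    obtain ⟨Z, hZ, hc⟩ := exists_subset_card_eq (n := 4 + 1) (s := Y) (by omega)
    obtain ⟨x5, W, h5, rfl, hW⟩ := card_eq_succ.1 hc
    have hsp := spans_mom hW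
    obtain ⟨x1, x2, x3, x4, -, -, -, -, -, -, rfl⟩ := card_eq_four.1 hW
    have he : φ = sph x1 x2 x3 x4 := by
      apply hsp.unique (by rw [hφ, sph_wi])
      intro p hp
      obtain ⟨x, hx, rfl⟩ := mem_image.1 hp
      rw [hz _ (mem_image_of_mem _ (hZ (mem_insert_of_mem hx))), sph_mom]
      simp only [mem_insert, mem_singleton] at hx
      rcases hx with rfl | rfl | rfl | rfl <;> simp
    have h0 := hz _ (mem_image_of_mem _ (hZ (mem_insert_self _ _)))
    have hp : ∀ x ∈ insert x5 ({x1, x2, x3, x4} : Finset ℝ), 0 < x := fun x hx => hX x (hY (hZ hx))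
    have hc' := cof_pos (hp x1 (by simp)) (hp x2 (by simp)) (hp x3 (by simp)) (hp x4 (by simp))
      (hp x5 (by simp))
    simp only [mem_insert, mem_singleton, not_or] at h5
    rw [he, sph_mom] at h0
    exact mul_ne_zero (mul_ne_zero (mul_ne_zero (sub_ne_zero.2 h5.1) (sub_ne_zero.2 h5.2.1))
      (mul_ne_zero (sub_ne_zero.2 h5.2.2.1) (sub_ne_zero.2 h5.2.2.2))) hc'.ne' h0

theorem ev_top {A B C : ℝ} (h : 0 < C ∨ (C = 0 ∧ 0 < B)) :
    ∀ᶠ R in atTop, 0 < A + R * B + R ^ 2 * C := by
  rcases h with h | ⟨rfl, h⟩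
  · filter_upwards [eventually_gt_atTop 1, eventually_gt_atTop ((|A| + |B|) / C)] with R h1 h2
    rw [div_lt_iff₀ h] at h2
    have h3 := neg_abs_le A
    have h4 := neg_abs_le B
    have h5 := abs_nonneg A
    have h6 : |A| ≤ R * |A| := by nlinarith
    have h7 : R * (|A| + |B|) < R * (R * C) := mul_lt_mul_of_pos_left h2 (by linarith)
    have h8 : R * (-|B|) ≤ R * B := mul_le_mul_of_nonneg_left h4 (by linarith)
    nlinarith
  · filter_upwards [eventually_gt_atTop (-A / B)] with R h1
    rw [div_lt_iff₀ h] at h1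
    linarith

theorem pl_tg (a b c θ : ℝ) : pl a b c (tg 0 (vec 0 (-1) (-θ))) = a + b + c - θ := by
  simp [pl, mkf_apply, tg, inner_vec]
  ring

theorem exists_far {T : Finset P} (h : Adm T) (h4 : NFC T) (Z : Finset ℝ) (θ : ℝ) :
    ∃ y, y ∉ T ∧ Adm (insert y T) ∧ NFC (insert y T) ∧
      (∀ a ∈ Z, ∀ b ∈ Z, ∀ c ∈ Z, ∀ d ∈ Z, 0 < sph a b c d (up y)) ∧
      (∀ a ∈ Z, ∀ b ∈ Z, ∀ c ∈ Z, θ < a + b + c → 0 < pl a b c (up y)) ∧
      (∀ a ∈ Z, ∀ b ∈ Z, ∀ c ∈ Z, a + b + c < θ → pl a b c (up y) < 0) := by
  set v := vec 0 (-1) (-θ) with hv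
  have hv0 : 0 < ‖v‖ ^ 2 := by
    rw [← real_inner_self_eq_norm_sq, hv, inner_vec]
    nlinarith [sq_nonneg θ]
  let f : ℝ × ℝ × ℝ × ℝ × Bool → Dual ℝ E5 := fun x =>
    if x.2.2.2.2 = false ∧ θ < x.1 + x.2.1 + x.2.2.1 then pl x.1 x.2.1 x.2.2.1
    else if x.2.2.2.2 = false ∧ x.1 + x.2.1 + x.2.2.1 < θ then -pl x.1 x.2.1 x.2.2.1
    else sph x.1 x.2.1 x.2.2.1 x.2.2.2.1
  have hev : ∀ x, ∀ᶠ R : ℝ in atTop, 0 < f x (up (0 + R • v)) := by
    intro x
    simp only [fn_line]
    apply ev_top
    simp only [f]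
    split_ifs with h1 h2
    · right
      rw [pl_wi, pl_tg]
      exact ⟨mul_zero _, by linarith [h1.2]⟩
    · right
      rw [LinearMap.neg_apply, LinearMap.neg_apply, pl_wi, pl_tg]
      exact ⟨by simp, by linarith [h2.2]⟩
    · left
      rw [sph_wi, mul_one]
      exact hv0
  set I := Z ×ˢ Z ×ˢ Z ×ˢ Z ×ˢ (univ : Finset Bool)
  obtain ⟨R, hR⟩ := ((eventually_all_finset I).2 fun x _ => hev x).exists
  obtain ⟨y, hy, h1, h2, h3⟩ := h.extend h4 (isOpen_pos I f) ⟨_, hR⟩
  refine ⟨y, h1, h2, h3, fun a ha b hb c hc d hd => ?_, fun a ha b hb c hc hlt => ?_,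
    fun a ha b hb c hc hlt => ?_⟩
  · simpa [f] using hy (a, b, c, d, true) (by simp [I, ha, hb, hc, hd])
  · simpa [f, hlt] using hy (a, b, c, c, false) (by simp [I, ha, hb, hc])
  · simpa [f, hlt, hlt.not_gt] using hy (a, b, c, c, false) (by simp [I, ha, hb, hc])

/-- parameters -/
noncomputable def xx (i : ℕ) : ℝ := 2 ^ i

theorem xx_pos (i : ℕ) : 0 < xx i := by unfold xx; positivity

theorem xx_mono : StrictMono xx := fun _ _ h => pow_lt_pow_right₀ (by norm_num) h

theorem xx_succ (i : ℕ) : xx (i + 1) = 2 * xx i := by unfold xx; ring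

theorem xx_one_le (i : ℕ) : 1 ≤ xx i := one_le_pow₀ (by norm_num)

theorem xx_gap (k i : ℕ) : 0 ≤ (xx k - xx i) * (xx k - xx (i + 1)) := by
  rcases le_or_gt k i with h | h
  · exact mul_nonneg_of_nonpos_of_nonpos (sub_nonpos.2 (xx_mono.monotone h))
      (sub_nonpos.2 (xx_mono.monotone (by omega)))
  · exact mul_nonneg (sub_nonneg.2 (xx_mono.monotone h.le))
      (sub_nonneg.2 (xx_mono.monotone (by omega)))

noncomputable def pt (i : ℕ) : P := mom (xx i)

theorem pt_inj : Function.Injective pt := mom_inj.comp xx_mono.injective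

noncomputable def curve (m : ℕ) : Finset P := ((range m).image xx).image mom

theorem mem_curve {m : ℕ} {p : P} : p ∈ curve m ↔ ∃ i < m, pt i = p := by
  simp [curve, pt]

theorem card_curve (m : ℕ) : (curve m).card = m := by
  rw [curve, card_image_of_injective _ mom_inj, card_image_of_injective _ xx_mono.injective,
    card_range]

theorem adm_curve {m : ℕ} (h : 4 ≤ m) : Adm (curve m) :=
  adm_mom (by rwa [card_image_of_injective _ xx_mono.injective, card_range]) fun x hx => by
    obtain ⟨i, -, rfl⟩ := mem_image.1 hx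
    exact xx_pos i

theorem facet_of_visible {T F : Finset P} {y : P} (h4 : NFC (insert y T)) (hy : y ∉ T)
    (hF : F ⊆ T) (hc : F.card = 3) {φ G : Dual ℝ E5} (hφ : φ wi = 1) (hG : G wi = 0)
    (hφT : ∀ p ∈ T, 0 ≤ φ (up p)) (hGT : ∀ p ∈ T, 0 ≤ G (up p))
    (hφF : ∀ p ∈ F, φ (up p) = 0) (hGF : ∀ p ∈ F, G (up p) = 0)
    (hφy : 0 < φ (up y)) (hGy : G (up y) < 0) : Facet (insert y T) up wi (insert y F) := by
  have hsub : insert y F ⊆ insert y T := insert_subset_insert _ hF
  have hk : 0 ≤ φ (up y) / -G (up y) := div_nonneg hφy.le (by linarith)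
  have h0 : (φ + (φ (up y) / -G (up y)) • G) (up y) = 0 := by
    simp only [LinearMap.add_apply, LinearMap.smul_apply, smul_eq_mul]
    have := hGy.ne
    field_simp
    ring
  refine ⟨⟨hsub, φ + (φ (up y) / -G (up y)) • G, ⟨by simp [hφ, hG], fun p hp => ?_⟩,
    fun p hp => ?_⟩, h4 _ hsub (by rw [card_insert_of_notMem fun e => hy (hF e), hc])⟩
  · rcases mem_insert.1 hp with rfl | hp
    · exact h0.ge
    · simp only [LinearMap.add_apply, LinearMap.smul_apply, smul_eq_mul]
      exact add_nonneg (hφT p hp) (mul_nonneg hk (hGT p hp))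
  · rcases mem_insert.1 hp with rfl | hp
    · exact h0
    · simp [hφF p hp, hGF p hp]

theorem card_three {i j k : ℕ} (h1 : i ≠ j) (h2 : i ≠ k) (h3 : j ≠ k) :
    ({pt i, pt j, pt k} : Finset P).card = 3 :=
  card_eq_three.2 ⟨_, _, _, pt_inj.ne h1, pt_inj.ne h2, pt_inj.ne h3, rfl⟩

theorem exists_max {m r : ℕ} (hm : 4 ≤ m) (hr : r + 3 ≤ m) :
    ∃ T : Finset P, Adm T ∧ NFC T ∧ T.card = m + 1 ∧ m + 1 - r ≤ (T.filter (Ext T)).card ∧
      (m - 2).choose 2 + (m - 2) + r ≤ (facets T up wi).card := by
  set θ : ℝ := 3 / 2 + 3 * xx r with hθ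
  set Z : Finset ℝ := insert 0 (insert (3 / 4) ((range (m + 1)).image xx)) with hZ
  have hZx : ∀ i, i ≤ m → xx i ∈ Z := fun i hi =>
    mem_insert_of_mem (mem_insert_of_mem (mem_image_of_mem _ (mem_range.2 (by omega))))
  have hZ0 : (0 : ℝ) ∈ Z := mem_insert_self _ _
  have hZ1 : (3 / 4 : ℝ) ∈ Z := mem_insert_of_mem (mem_insert_self _ _)
  obtain ⟨y, hy, hA, h4, hs, hp, hn⟩ := exists_far (adm_curve hm) (nfc_mom _) Z θ
  have hyi : ∀ i < m, pt i ≠ y := fun i hi e => hy (mem_curve.2 ⟨i, hi, e⟩)
  have hin : ∀ i < m, pt i ∈ curve m := fun i hi => mem_curve.2 ⟨i, hi, rfl⟩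
  have x0 : xx 0 = 1 := by simp [xx]
  have hbig : 4 * xx r ≤ xx (m - 1) := by
    have : xx (r + 2) ≤ xx (m - 1) := xx_mono.monotone (by omega)
    rw [xx_succ, xx_succ] at this
    linarith
  have hr1 := xx_one_le r
  refine ⟨insert y (curve m), hA, h4, by rw [card_insert_of_notMem hy, card_curve], ?_, ?_⟩
  · have hsub : insert y (insert (pt 0) ((Ico (r + 1) m).image pt)) ⊆
        (insert y (curve m)).filter (Ext (insert y (curve m))) := by
      intro p hp'
      rcases mem_insert.1 hp' with rfl | hp'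
      · have h1 := hn 0 hZ0 0 hZ0 0 hZ0 (by linarith)
        refine mem_filter.2 ⟨mem_insert_self _ _, pl 0 0 0 - (pl 0 0 0 (up p)) • mkf 1 0 0,
          by simp [pl_wi, mkf_wi], by simp [mkf_up], fun q hq hqp => ?_⟩
        obtain ⟨i, -, rfl⟩ := mem_curve.1 ((mem_insert.1 hq).resolve_left hqp)
        have := xx_pos i
        have h2 : 0 < pl 0 0 0 (up (pt i)) := by
          rw [pt, pl_mom]; simp only [sub_zero]; positivity
        simp only [LinearMap.sub_apply, LinearMap.smul_apply, mkf_up, inner_zero_left, zero_mul,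
          add_zero, smul_eq_mul, mul_one]
        linarith
      rcases mem_insert.1 hp' with rfl | hp'
      · refine mem_filter.2 ⟨mem_insert_of_mem (hin 0 (by omega)), pl (xx 0) (xx m) (xx m),
          pl_wi _ _ _, by rw [pt, pl_mom]; simp, fun q hq hqp => ?_⟩
        rcases mem_insert.1 hq with rfl | hq
        · apply hp _ (hZx 0 (by omega)) _ (hZx m le_rfl) _ (hZx m le_rfl)
          have : xx (m - 1) ≤ xx m := xx_mono.monotone (by omega)
          linarith
        · obtain ⟨i, hi, rfl⟩ := mem_curve.1 hq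
          have h1 : xx 0 < xx i := xx_mono (Nat.pos_of_ne_zero fun e => hqp (e ▸ rfl))
          have h2 : xx i < xx m := xx_mono hi
          rw [pt, pl_mom, mul_assoc]
          exact mul_pos (by linarith) (mul_pos_of_neg_of_neg (by linarith) (by linarith))
      · obtain ⟨j, hj, rfl⟩ := mem_image.1 hp'
        obtain ⟨hj1, hj2⟩ := mem_Ico.1 hj
        refine mem_filter.2 ⟨mem_insert_of_mem (hin j hj2), pl (3 / 4) (xx j) (xx j),
          pl_wi _ _ _, by rw [pt, pl_mom]; simp, fun q hq hqp => ?_⟩
        rcases mem_insert.1 hq with rfl | hq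
        · apply hp _ hZ1 _ (hZx j hj2.le) _ (hZx j hj2.le)
          have : xx (r + 1) ≤ xx j := xx_mono.monotone hj1
          rw [xx_succ] at this
          linarith
        · obtain ⟨i, hi, rfl⟩ := mem_curve.1 hq
          have h1 : xx i - xx j ≠ 0 := sub_ne_zero.2 fun e => hqp (xx_mono.injective e ▸ rfl)
          have h2 := xx_one_le i
          rw [pt, pl_mom, mul_assoc]
          exact mul_pos (by linarith) (mul_self_pos.2 h1)
    have := card_le_card hsub
    rw [card_insert_of_notMem, card_insert_of_notMem, card_image_of_injective _ pt_inj,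
      Nat.card_Ico] at this
    · omega
    · intro hx
      obtain ⟨j, hj, he⟩ := mem_image.1 hx
      have := pt_inj he
      have := (mem_Ico.1 hj).1
      omega
    · intro hx
      rcases mem_insert.1 hx with he | hx
      · exact hyi 0 (by omega) he.symm
      · obtain ⟨j, hj, he⟩ := mem_image.1 hx
        exact hyi j (mem_Ico.1 hj).2 he
  · set IA := (range (m - 2)).sigma fun j => range j with hIA
    set FA : Finset (Finset P) :=
      IA.image fun x => {pt x.2, pt (x.2 + 1), pt (x.1 + 1), pt (x.1 + 2)} with hFA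
    set FB : Finset (Finset P) :=
      (range (m - 2)).image fun j => insert y {pt j, pt (j + 1), pt (m - 1)} with hFB
    set FC : Finset (Finset P) :=
      (range r).image fun j => insert y {pt 0, pt (j + 1), pt (j + 2)} with hFC
    have cA : FA.card = (m - 2).choose 2 := by
      rw [card_image_of_injOn, card_sigma]
      · simp only [card_range]
        have := sum_range_id_mul_two (m - 2)
        rw [Nat.choose_two_right]
        omega
      · rintro ⟨j, i⟩ hx ⟨j', i'⟩ hx' he
        simp only [hIA, coe_sigma, Set.mem_sigma_iff, mem_coe, mem_range] at hx hx'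
        simp only at he
        have a1 := (Finset.ext_iff.1 he (pt i)).1 (by simp)
        have a2 := (Finset.ext_iff.1 he (pt i')).2 (by simp)
        have a3 := (Finset.ext_iff.1 he (pt (j + 2))).1 (by simp)
        have a4 := (Finset.ext_iff.1 he (pt (j' + 2))).2 (by simp)
        simp only [mem_insert, mem_singleton, pt_inj.eq_iff] at a1 a2 a3 a4
        obtain rfl : j = j' := by omega
        obtain rfl : i = i' := by omega
        rfl
    have cB : FB.card = m - 2 := by
      rw [card_image_of_injOn, card_range]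
      intro j hj j' hj' he
      simp only [coe_range, Set.mem_Iio] at hj hj'
      simp only at he
      have a1 := (Finset.ext_iff.1 he (pt j)).1 (by simp)
      have a2 := (Finset.ext_iff.1 he (pt j')).2 (by simp)
      simp only [mem_insert, mem_singleton, pt_inj.eq_iff, hyi j (by omega), hyi j' (by omega),
        false_or] at a1 a2
      omega
    have cC : FC.card = r := by
      rw [card_image_of_injOn, card_range]
      intro j hj j' hj' he
      simp only [coe_range, Set.mem_Iio] at hj hj'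
      simp only at he
      have a1 := (Finset.ext_iff.1 he (pt (j + 1))).1 (by simp)
      have a2 := (Finset.ext_iff.1 he (pt (j' + 1))).2 (by simp)
      simp only [mem_insert, mem_singleton, pt_inj.eq_iff, hyi (j + 1) (by omega),
        hyi (j' + 1) (by omega), false_or] at a1 a2
      omega
    have dBC : Disjoint FB FC := by
      rw [disjoint_left]
      intro S hB hC
      obtain ⟨j, hj, rfl⟩ := mem_image.1 hB
      obtain ⟨j', hj', he⟩ := mem_image.1 hC
      rw [mem_range] at hj hj'
      have a1 := (Finset.ext_iff.1 he (pt (m - 1))).2 (by simp)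
      simp only [mem_insert, mem_singleton, pt_inj.eq_iff, hyi (m - 1) (by omega),
        false_or] at a1
      omega
    have dA : Disjoint FA (FB ∪ FC) := by
      rw [disjoint_left]
      intro S hA' hB
      have hyS : y ∈ S := by
        rcases mem_union.1 hB with hB | hB <;>
        · obtain ⟨j, -, rfl⟩ := mem_image.1 hB
          exact mem_insert_self _ _
      obtain ⟨⟨j, i⟩, hx, rfl⟩ := mem_image.1 hA'
      simp only [hIA, mem_sigma, mem_range] at hx
      simp only [mem_insert, mem_singleton] at hyS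
      rcases hyS with e | e | e | e <;> exact hyi _ (by omega) e.symm
    have hsub : FA ∪ (FB ∪ FC) ⊆ facets (insert y (curve m)) up wi := by
      intro S hS
      rw [mem_facets]
      rcases mem_union.1 hS with hS | hS
      · obtain ⟨⟨j, i⟩, hx, rfl⟩ := mem_image.1 hS
        simp only [hIA, mem_sigma, mem_range] at hx
        dsimp only
        have hsub : ({pt i, pt (i + 1), pt (j + 1), pt (j + 2)} : Finset P) ⊆
            insert y (curve m) := by
          intro p hp
          simp only [mem_insert, mem_singleton] at hp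
          rcases hp with rfl | rfl | rfl | rfl <;> exact mem_insert_of_mem (hin _ (by omega))
        refine ⟨⟨hsub, sph (xx i) (xx (i + 1)) (xx (j + 1)) (xx (j + 2)),
          ⟨sph_wi _ _ _ _, fun p hp => ?_⟩, fun p hp => ?_⟩, h4 _ hsub ?_⟩
        · rcases mem_insert.1 hp with rfl | hp
          · exact (hs _ (hZx _ (by omega)) _ (hZx _ (by omega)) _ (hZx _ (by omega)) _
              (hZx _ (by omega))).le
          · obtain ⟨k, -, rfl⟩ := mem_curve.1 hp
            rw [pt, sph_mom]
            exact mul_nonneg (mul_nonneg (xx_gap k i) (xx_gap k (j + 1)))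
              (cof_pos (xx_pos _) (xx_pos _) (xx_pos _) (xx_pos _) (xx_pos _)).le
        · simp only [mem_insert, mem_singleton] at hp
          rcases hp with rfl | rfl | rfl | rfl <;> simp [pt, sph_mom]
        · exact card_eq_four.2 ⟨_, _, _, _, pt_inj.ne (by omega), pt_inj.ne (by omega),
            pt_inj.ne (by omega), pt_inj.ne (by omega), pt_inj.ne (by omega),
            pt_inj.ne (by omega), rfl⟩
      rcases mem_union.1 hS with hS | hS
      · obtain ⟨j, hj, rfl⟩ := mem_image.1 hS
        rw [mem_range] at hj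
        refine facet_of_visible h4 hy ?_ (card_three (by omega) (by omega) (by omega))
          (φ := sph (xx j) (xx (j + 1)) (xx (m - 1)) (xx (m - 1)))
          (G := -pl (xx j) (xx (j + 1)) (xx (m - 1))) (sph_wi _ _ _ _) (by simp [pl_wi])
          (fun p hp => ?_) (fun p hp => ?_) (fun p hp => ?_) (fun p hp => ?_) ?_ ?_
        · intro p hp
          simp only [mem_insert, mem_singleton] at hp
          rcases hp with rfl | rfl | rfl <;> exact hin _ (by omega)
        · obtain ⟨k, -, rfl⟩ := mem_curve.1 hp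
          rw [pt, sph_mom]
          exact mul_nonneg (mul_nonneg (xx_gap k j) (mul_self_nonneg _))
            (cof_pos (xx_pos _) (xx_pos _) (xx_pos _) (xx_pos _) (xx_pos _)).le
        · obtain ⟨k, hk, rfl⟩ := mem_curve.1 hp
          rw [LinearMap.neg_apply, pt, pl_mom, neg_nonneg]
          exact mul_nonpos_of_nonneg_of_nonpos (xx_gap k j)
            (sub_nonpos.2 (xx_mono.monotone (by omega)))
        · simp only [mem_insert, mem_singleton] at hp
          rcases hp with rfl | rfl | rfl <;> simp [pt, sph_mom]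
        · simp only [mem_insert, mem_singleton] at hp
          rcases hp with rfl | rfl | rfl <;> simp [pt, pl_mom]
        · exact hs _ (hZx _ (by omega)) _ (hZx _ (by omega)) _ (hZx _ (by omega)) _
            (hZx _ (by omega))
        · rw [LinearMap.neg_apply, neg_lt_zero]
          apply hp _ (hZx _ (by omega)) _ (hZx _ (by omega)) _ (hZx _ (by omega))
          linarith [xx_one_le j, xx_one_le (j + 1)]
      · obtain ⟨j, hj, rfl⟩ := mem_image.1 hS
        rw [mem_range] at hj
        refine facet_of_visible h4 hy ?_ (card_three (by omega) (by omega) (by omega))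
          (φ := sph (xx 0) (xx 0) (xx (j + 1)) (xx (j + 2)))
          (G := pl (xx 0) (xx (j + 1)) (xx (j + 2))) (sph_wi _ _ _ _) (pl_wi _ _ _)
          (fun p hp => ?_) (fun p hp => ?_) (fun p hp => ?_) (fun p hp => ?_) ?_ ?_
        · intro p hp
          simp only [mem_insert, mem_singleton] at hp
          rcases hp with rfl | rfl | rfl <;> exact hin _ (by omega)
        · obtain ⟨k, -, rfl⟩ := mem_curve.1 hp
          rw [pt, sph_mom]
          exact mul_nonneg (mul_nonneg (mul_self_nonneg _) (xx_gap k (j + 1)))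
            (cof_pos (xx_pos _) (xx_pos _) (xx_pos _) (xx_pos _) (xx_pos _)).le
        · obtain ⟨k, hk, rfl⟩ := mem_curve.1 hp
          rw [pt, pl_mom, mul_assoc]
          exact mul_nonneg (sub_nonneg.2 (xx_mono.monotone (by omega))) (xx_gap k (j + 1))
        · simp only [mem_insert, mem_singleton] at hp
          rcases hp with rfl | rfl | rfl <;> simp [pt, sph_mom]
        · simp only [mem_insert, mem_singleton] at hp
          rcases hp with rfl | rfl | rfl <;> simp [pt, pl_mom]
        · exact hs _ (hZx _ (by omega)) _ (hZx _ (by omega)) _ (hZx _ (by omega)) _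
            (hZx _ (by omega))
        · apply hn _ (hZx _ (by omega)) _ (hZx _ (by omega)) _ (hZx _ (by omega))
          have h1 : xx (j + 1) ≤ xx r := xx_mono.monotone (by omega)
          rw [xx_succ (j + 1)]
          linarith
    have := card_le_card hsub
    rw [card_union_of_disjoint dA, card_union_of_disjoint dBC, cA, cB, cC] at this
    omega

end Pool.Agent.Lib.MP_68998a_co
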