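import Pool.Agent.Lib.MP_68998a_co.ConsMax

/-! The minimal configurations, by inserting points one at a time. -/

namespace Pool.Agent.Lib.MP_68998a_co

open Module Finset Filter Topology
open scoped Classical RealInnerProductSpace

variable {T : Finset P}

/-- some point lies in exactly one tetrahedron -/
def Ear (T : Finset P) : Prop :=
  ∃ y S0, Facet T up wi S0 ∧ y ∈ S0 ∧ ∀ S, Facet T up wi S → y ∈ S → S = S0

/-- near some point there is room for a point inside one circumsphere only -/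
def Pocket (T : Finset P) : Prop :=
  ∃ (y : P) (S0 : Finset P) (v : P), S0 ⊆ T ∧ S0.card = 4 ∧ y ∈ S0 ∧
    (∀ k ∈ S0.erase y, 0 < co up wi S0 k (tg y v)) ∧
    ∀ S, Facet T up wi S → y ∈ S → S ≠ S0 → 0 < fn T up wi S (tg y v)

theorem co_tg {S : Finset P} (h : Spans up wi S) (hc : S.card = 4) {y k : P} (hy : y ∈ S)
    (hk : k ∈ S.erase y) {K : Finset P} (hK : K ⊆ S) (hkK : k ∈ K) :
    co up wi S k (tg y (∑ j ∈ K, (j - y))) = 1 := by
  obtain ⟨hky, hkS⟩ := mem_erase.1 hk
  obtain ⟨c1, c2, c3⟩ := spans_isCo h hc hkS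
  rw [map_sum, map_sum, sum_eq_single k]
  · rw [fn_tg, c1, c2, c3 y hy hky.symm]; ring
  · intro j hj hjk
    rw [fn_tg, c1, c3 j (hK hj) hjk, c3 y hy hky.symm]; ring
  · intro hn; exact absurd hkK hn

theorem eq_erase_of_subset {F S : Finset P} (h : F ⊆ S) (hF : F.card = 3) (hS : S.card = 4) :
    ∃ k ∈ S, F = S.erase k := by
  obtain ⟨k, hk, hkF⟩ : ∃ k ∈ S, k ∉ F := by
    by_contra hn
    push Not at hn
    have := card_le_card (show S ⊆ F from hn)
    omega
  refine ⟨k, hk, eq_of_subset_of_card_le (fun p hp => mem_erase.2 ⟨fun e => hkF (e ▸ hp), h hp⟩) ?_⟩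
  rw [card_erase_of_mem hk, hF, hS]

theorem sq_pos_of_ne {a b : P} (h : a ≠ b) : 0 < ‖a - b‖ ^ 2 :=
  pow_pos (norm_pos_iff.2 (sub_ne_zero.2 h)) 2

theorem step_hull (h : Adm T) (h4 : NFC T) (he : Ear T) :
    ∃ z, z ∉ T ∧ Adm (insert z T) ∧ NFC (insert z T) ∧ Ear (insert z T) ∧
      (facets (insert z T) up wi).card ≤ (facets T up wi).card + 1 := by
  obtain ⟨y, S0, hS0, hy, huniq⟩ := he
  have hs := h.simple
  have hc := hS0.card_eq hs
  obtain ⟨c, hcS⟩ : (S0.erase y).Nonempty := by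
    rw [← card_pos, card_erase_of_mem hy, hc]; norm_num
  obtain ⟨hcy, hcS0⟩ := mem_erase.1 hcS
  set K := (S0.erase y).erase c with hK
  have hKS : K ⊆ S0 := (erase_subset _ _).trans (erase_subset _ _)
  set κ := (∑ k ∈ K, ‖k - y‖ ^ 2 + 1) / ‖c - y‖ ^ 2 with hκ
  set v := ∑ k ∈ K, (k - y) - κ • (c - y) with hv
  obtain ⟨z, hz, hzT, hA, hN⟩ := h.extend_near h4 y v
    ((facets T up wi).disjSum (((T.erase y).powersetCard 3).disjSum K))
    (Sum.elim (fn T up wi) (Sum.elim (fun F => co up wi (insert y F) y) (co up wi S0))) (by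
      rintro (S | F | k) hi
      · rw [inl_mem_disjSum, mem_facets] at hi
        simp only [Sum.elim_inl]
        by_cases hyS : y ∈ S
        · obtain rfl := huniq S hi hyS
          right
          refine ⟨hi.1.fn_zero y hyS, ?_⟩
          rw [hv, map_sub, map_sub, map_smul, map_smul, map_sum, map_sum, fn_tg,
            hi.1.fn_zero y hyS, hi.1.fn_zero c hcS0, hi.1.fn_feas.1]
          rw [sum_congr rfl (g := fun k => -‖k - y‖ ^ 2) fun k hk => by
            rw [fn_tg, hi.1.fn_zero y hyS, hi.1.fn_zero k (hKS hk), hi.1.fn_feas.1]; ring]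
          have := sq_pos_of_ne hcy
          have e : κ * ‖c - y‖ ^ 2 = ∑ k ∈ K, ‖k - y‖ ^ 2 + 1 := by
            rw [hκ, div_mul_cancel₀ _ this.ne']
          rw [sum_neg_distrib, smul_eq_mul]
          linarith
        · exact Or.inl (hi.fn_pos hs (hS0.1.1 hy) hyS)
      · rw [inr_mem_disjSum, inl_mem_disjSum, mem_powersetCard] at hi
        have hyF : y ∉ F := fun e => notMem_erase _ _ (hi.1 e)
        have hc' : (insert y F).card = 4 := by rw [card_insert_of_notMem hyF, hi.2]
        left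
        simp only [Sum.elim_inr, Sum.elim_inl]
        rw [(spans_isCo (h4 _ (insert_subset (hS0.1.1 hy) (hi.1.trans (erase_subset _ _))) hc') hc'
          (mem_insert_self _ _)).2.1]
        exact one_pos
      · rw [inr_mem_disjSum, inr_mem_disjSum] at hi
        obtain ⟨hkc, hk⟩ := mem_erase.1 hi
        obtain ⟨hky, hkS⟩ := mem_erase.1 hk
        obtain ⟨c1, c2, c3⟩ := spans_isCo hS0.2 hc hkS
        right
        simp only [Sum.elim_inr]
        refine ⟨c3 y hy hky.symm, ?_⟩
        rw [hv, map_sub, map_sub, co_tg hS0.2 hc hy hk hKS hi, map_smul, map_smul, fn_tg, c1,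
          c3 y hy hky.symm, c3 c hcS0 hkc.symm]
        simp)
  have hnew : ∀ S, Facet (insert z T) up wi S → z ∈ S → S = insert z (S0.erase c) := by
    intro S hS hzS
    rw [← insert_erase hzS]
    congr 1
    have hF3 : (S.erase z).card = 3 := by rw [card_erase_of_mem hzS, hS.card_eq hA.simple]
    have hFT := (new_face hS).1
    rcases new_facet hA hzT hS hzS with ⟨S', hS', -, hlt⟩ | ⟨D, hD, hpos, hDz, hlt⟩
    · have := hz (Sum.inl S') (inl_mem_disjSum.2 (mem_facets.2 hS'))
      simp only [Sum.elim_inl] at this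
      linarith
    by_cases hyF : y ∈ S.erase z
    · obtain ⟨S', hS', hsub⟩ := h.face_facet (new_face hS)
      obtain rfl := huniq S' hS' (hsub hyF)
      obtain ⟨k, hk, hke⟩ := eq_erase_of_subset hsub hF3 hc
      by_cases hkc : k = c
      · rw [hke, hkc]
      · exfalso
        have hky : k ≠ y := fun e => notMem_erase k S' (by rw [← hke, e]; exact hyF)
        have h1 := hz (Sum.inr (Sum.inr k)) (inr_mem_disjSum.2 (inr_mem_disjSum.2
          (mem_erase.2 ⟨hkc, mem_erase.2 ⟨hky, hk⟩⟩)))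
        simp only [Sum.elim_inr] at h1
        have h2 := spans_single hS'.2 hc hk D hD (hke ▸ hDz) (up z)
        have := mul_nonneg (hpos k (hS'.1.1 hk)) h1.le
        linarith
    · exfalso
      have hc' : (insert y (S.erase z)).card = 4 := by rw [card_insert_of_notMem hyF, hF3]
      have h1 := hz (Sum.inr (Sum.inl (S.erase z))) (inr_mem_disjSum.2 (inl_mem_disjSum.2
        (mem_powersetCard.2 ⟨fun p hp => mem_erase.2 ⟨fun e => hyF (e ▸ hp), hFT hp⟩, hF3⟩)))
      simp only [Sum.elim_inr, Sum.elim_inl] at h1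
      have h2 := spans_single (h4 _ (insert_subset (hS0.1.1 hy) hFT) hc') hc'
        (mem_insert_self _ _) D hD (by rwa [erase_insert hyF]) (up z)
      have := mul_nonneg (hpos y (hS0.1.1 hy)) h1.le
      linarith
  refine ⟨z, hzT, hA, hN, ?_, ?_⟩
  · obtain ⟨S1, hS1, hsub⟩ := hA.face_facet (face_single (mem_insert_self z T))
    have hz1 := singleton_subset_iff.1 hsub
    exact ⟨z, S1, hS1, hz1, fun S hS hzS => by rw [hnew S hS hzS, hnew S1 hS1 hz1]⟩
  · have h1 := count_insert (T := T) z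
    have h2 := card_filter_le (facets T up wi) fun S => 0 ≤ fn T up wi S (up z)
    have h3 : ((facets (insert z T) up wi).filter (z ∈ ·)).card ≤ 1 :=
      card_le_one_iff_subset_singleton.2 ⟨_, fun S hS => mem_singleton.2
        (hnew S (mem_facets.1 (mem_filter.1 hS).1) (mem_filter.1 hS).2)⟩
    omega

theorem phase_hull {n : ℕ} (hn : 4 ≤ n) : ∃ T : Finset P, Adm T ∧ NFC T ∧ Ear T ∧ T.card = n ∧
    (T.filter (Ext T)).card = n ∧ (facets T up wi).card + 3 ≤ n := by
  have key : ∃ T : Finset P, Adm T ∧ NFC T ∧ Ear T ∧ T.card = n ∧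
      (facets T up wi).card + 3 ≤ n := by
    induction n, hn using Nat.le_induction with
    | base =>
      have hA := adm_curve (le_refl 4)
      have hall : ∀ S, Facet (curve 4) up wi S → S = curve 4 := fun S hS =>
        eq_of_subset_of_card_le hS.1.1 (by rw [hS.card_eq hA.simple, card_curve])
      obtain ⟨S1, hS1, hsub⟩ := hA.face_facet (face_single (mem_curve.2 ⟨0, by norm_num, rfl⟩))
      refine ⟨curve 4, hA, nfc_mom _, ⟨_, S1, hS1, singleton_subset_iff.1 hsub, fun S hS _ => by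
        rw [hall S hS, hall S1 hS1]⟩, card_curve 4, ?_⟩
      have : (facets (curve 4) up wi).card ≤ 1 :=
        card_le_one_iff_subset_singleton.2 ⟨_, fun S hS => mem_singleton.2
          (hall S (mem_facets.1 hS))⟩
      omega
    | succ n hn ih =>
      obtain ⟨T, h1, h2, h3, h4, h5⟩ := ih
      obtain ⟨z, k1, k2, k3, k4, k5⟩ := step_hull h1 h2 h3
      exact ⟨_, k2, k3, k4, by rw [card_insert_of_notMem k1, h4], by omega⟩
  obtain ⟨T, h1, h2, h3, h4, h5⟩ := key
  have h6 := h1.lower_gp h2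
  have h7 := card_filter_le T (Ext T)
  exact ⟨T, h1, h2, h3, h4, by omega, h5⟩

theorem Ear.pocket (h : Adm T) (he : Ear T) : Pocket T := by
  obtain ⟨y, S0, hS0, hy, huniq⟩ := he
  have hc := hS0.card_eq h.simple
  refine ⟨y, S0, ∑ k ∈ S0.erase y, (k - y), hS0.1.1, hc, hy, fun k hk => ?_,
    fun S hS hyS hne => absurd (huniq S hS hyS) hne⟩
  rw [co_tg hS0.2 hc hy hk (erase_subset _ _) hk]
  exact one_pos

theorem step_inner (h : Adm T) (h4 : NFC T) (hp : Pocket T) :
    ∃ z, z ∉ T ∧ Adm (insert z T) ∧ NFC (insert z T) ∧ Pocket (insert z T) ∧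
      (facets (insert z T) up wi).card ≤ (facets T up wi).card + 3 ∧
      (insert z T).filter (Ext (insert z T)) = T.filter (Ext T) := by
  obtain ⟨y, S0, v, hS0, hc, hy, hco, hfn⟩ := hp
  have hs := h.simple
  have hsp := h4 S0 hS0 hc
  obtain ⟨z, hz, hzT, hA, hN⟩ := h.extend_near h4 y v (((facets T up wi).erase S0).disjSum S0)
    (Sum.elim (fn T up wi) (co up wi S0)) (by
      rintro (S | k) hi
      · rw [inl_mem_disjSum, mem_erase, mem_facets] at hi
        simp only [Sum.elim_inl]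
        by_cases hyS : y ∈ S
        · exact Or.inr ⟨hi.2.1.fn_zero y hyS, hfn S hi.2 hyS hi.1⟩
        · exact Or.inl (hi.2.fn_pos hs (hS0 hy) hyS)
      · rw [inr_mem_disjSum] at hi
        simp only [Sum.elim_inr]
        obtain ⟨c1, c2, c3⟩ := spans_isCo hsp hc hi
        by_cases hky : k = y
        · left
          rw [← hky, c2]
          exact one_pos
        · exact Or.inr ⟨c3 y hy (Ne.symm hky), hco k (mem_erase.2 ⟨hky, hi⟩)⟩)
  have hl : ∀ k ∈ S0, 0 < co up wi S0 k (up z) := fun k hk => by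
    simpa using hz (Sum.inr k) (inr_mem_disjSum.2 hk)
  have he : ∀ D : Dual ℝ E5, D wi = 0 → D (up z) = ∑ k ∈ S0, D (up k) * co up wi S0 k (up z) :=
    fun D hD => spans_expand hsp hc D hD _
  have hzS0 : ∀ k ∈ S0, k ≠ z := fun k hk e => hzT (e ▸ hS0 hk)
  have hin : Facet T up wi S0 → fn T up wi S0 (up z) < 0 := by
    intro hF
    obtain ⟨ψ, hψ, hk⟩ := sphere_fn z 0
    have h1 := he (fn T up wi S0 - ψ) (by simp [hF.1.fn_feas.1, hψ])
    have h2 : ∑ k ∈ S0, (fn T up wi S0 - ψ) (up k) * co up wi S0 k (up z) < 0 := by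
      apply sum_neg _ ⟨y, hy⟩
      intro k hk'
      apply mul_neg_of_neg_of_pos _ (hl k hk')
      rw [LinearMap.sub_apply, hF.1.fn_zero k hk', hk]
      have := pow_pos (dist_pos.2 (hzS0 k hk')) 2
      linarith
    rw [LinearMap.sub_apply, hk] at h1
    simp only [dist_self, ne_eq, OfNat.ofNat_ne_zero, not_false_eq_true, zero_pow, sub_zero] at h1
    linarith
  have hnew : ∀ S, Facet (insert z T) up wi S → z ∈ S → Facet T up wi S0 ∧ S.erase z ⊆ S0 := by
    intro S hS hzS
    rcases new_facet hA hzT hS hzS with ⟨S', hS', hsub, hlt⟩ | ⟨D, hD, hpos, -, hlt⟩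
    · by_cases hne : S' = S0
      · exact hne ▸ ⟨hS', hsub⟩
      · have := hz (Sum.inl S') (inl_mem_disjSum.2 (mem_erase.2 ⟨hne, mem_facets.2 hS'⟩))
        simp only [Sum.elim_inl] at this
        linarith
    · have := sum_nonneg fun k hk => mul_nonneg (hpos k (hS0 hk)) (hl k hk).le
      linarith [he D hD]
  refine ⟨z, hzT, hA, hN, ?_, ?_, ext_insert hzT hS0 (by omega) _ hl he⟩
  · set K := S0.erase y with hK
    have hzK : z ∉ K := fun e => hzS0 z (mem_erase.1 e).2 rfl
    have hc' : (insert z K).card = 4 := by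
      rw [card_insert_of_notMem hzK, card_erase_of_mem hy, hc]
    have hsub' : insert z K ⊆ insert z T :=
      insert_subset_insert _ ((erase_subset _ _).trans hS0)
    have hsp' := hN _ hsub' hc'
    set β := (∑ k ∈ K, ‖k - z‖ ^ 2) / ‖y - z‖ ^ 2 with hβ
    have hyz := sq_pos_of_ne (hzS0 y hy)
    have hβ0 : 0 ≤ β := div_nonneg (sum_nonneg fun _ _ => sq_nonneg _) hyz.le
    refine ⟨z, insert z K, ∑ k ∈ K, (k - z) - β • (y - z), hsub', hc', mem_insert_self _ _,
      fun k hk => ?_, fun S hS hzS hne => ?_⟩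
    · have hkK : k ∈ K := by rwa [erase_insert hzK] at hk
      obtain ⟨c1, c2, c3⟩ := spans_isCo hsp' hc' (mem_insert_of_mem hkK)
      have c4 := c3 z (mem_insert_self _ _) (mem_erase.1 hk).1.symm
      rw [map_sub, map_sub, co_tg hsp' hc' (mem_insert_self _ _) hk (subset_insert _ _) hkK,
        map_smul, map_smul, fn_tg, c1, c4]
      have h1 := he _ c1
      rw [c4, ← add_sum_erase _ _ hy, ← hK, sum_eq_single k, c2] at h1
      · have h2 := hl k (mem_erase.1 hkK).2
        have h3 : co up wi (insert z K) k (up y) < 0 := by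
          by_contra hn
          have := mul_nonneg (not_lt.1 hn) (hl y hy).le
          linarith
        have := mul_nonneg hβ0 (neg_pos.2 h3).le
        simp only [smul_eq_mul]
        linarith
      · intro j hj hjk
        rw [c3 j (mem_insert_of_mem hj) hjk, zero_mul]
      · intro hn; exact absurd hkK hn
    · obtain ⟨-, hsub⟩ := hnew S hS hzS
      have hcS := hS.card_eq hA.simple
      obtain ⟨i, hi, hie⟩ := eq_erase_of_subset hsub (by rw [card_erase_of_mem hzS, hcS]) hc
      have hiy : i ≠ y := fun e => hne (by rw [← insert_erase hzS, hie, e])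
      have hyS : y ∈ S := (erase_subset z S) (hie ▸ mem_erase.2 ⟨hiy.symm, hy⟩)
      have hiS : i ∉ S := fun e =>
        notMem_erase i S0 (hie ▸ mem_erase.2 ⟨hzS0 i hi, e⟩)
      set φ := fn (insert z T) up wi S with hφ
      have f1 : φ wi = 1 := hS.1.fn_feas.1
      have f2 : φ (up z) = 0 := hS.1.fn_zero z hzS
      have f3 : φ (up y) = 0 := hS.1.fn_zero y hyS
      have f4 : 0 < ∑ k ∈ K, φ (up k) :=
        sum_pos' (fun k hk => hS.1.fn_feas.2 k (hsub' (mem_insert_of_mem hk)))
          ⟨i, mem_erase.2 ⟨hiy, hi⟩, hS.fn_pos hA.simple (mem_insert_of_mem (hS0 hi)) hiS⟩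
      rw [map_sub, map_sub, map_smul, map_smul, map_sum, map_sum, fn_tg, f1, f2, f3]
      rw [sum_congr rfl (g := fun k => φ (up k) - ‖k - z‖ ^ 2) fun k _ => by
        rw [fn_tg, f1, f2]; ring]
      have e : β * ‖y - z‖ ^ 2 = ∑ k ∈ K, ‖k - z‖ ^ 2 := by
        rw [hβ, div_mul_cancel₀ _ hyz.ne']
      rw [sum_sub_distrib, smul_eq_mul]
      linarith
  · have h1 := count_insert (T := T) z
    by_cases hF : Facet T up wi S0
    · have h2 : ((facets T up wi).filter fun S => 0 ≤ fn T up wi S (up z)) ⊆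
          (facets T up wi).erase S0 := fun S hS => mem_erase.2 ⟨fun e => by
            have := (mem_filter.1 hS).2
            rw [e] at this
            linarith [hin hF], (mem_filter.1 hS).1⟩
      have h3 := card_le_card h2
      rw [card_erase_of_mem (mem_facets.2 hF)] at h3
      have h5 := card_pos.2 ⟨S0, mem_facets.2 hF⟩
      have h6 : ((facets (insert z T) up wi).filter (z ∈ ·)) ⊆ S0.image fun k => insert z (S0.erase k) := by
        intro S hS
        obtain ⟨hS, hzS⟩ := mem_filter.1 hS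
        rw [mem_facets] at hS
        obtain ⟨i, hi, hie⟩ := eq_erase_of_subset (hnew S hS hzS).2
          (by rw [card_erase_of_mem hzS, hS.card_eq hA.simple]) hc
        exact mem_image.2 ⟨i, hi, by rw [← hie, insert_erase hzS]⟩
      have h7 := (card_le_card h6).trans card_image_le
      omega
    · have h2 := card_filter_le (facets T up wi) fun S => 0 ≤ fn T up wi S (up z)
      have h3 : ((facets (insert z T) up wi).filter (z ∈ ·)) = ∅ :=
        filter_eq_empty_iff.2 fun S hS hzS => hF (hnew S (mem_facets.1 hS) hzS).1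
      rw [h3, card_empty] at h1
      omega

theorem exists_min_gp {m n : ℕ} (hm : 4 ≤ m) (hn : m ≤ n) : ∃ T : Finset P, Adm T ∧ NFC T ∧
    T.card = n ∧ (T.filter (Ext T)).card = m ∧ (facets T up wi).card + 2 * m + 3 ≤ 3 * n := by
  have key : ∃ T : Finset P, Adm T ∧ NFC T ∧ Pocket T ∧ T.card = n ∧
      (T.filter (Ext T)).card = m ∧ (facets T up wi).card + 2 * m + 3 ≤ 3 * n := by
    induction n, hn using Nat.le_induction with
    | base =>
      obtain ⟨T, h1, h2, h3, h4, h5, h6⟩ := phase_hull hm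
      exact ⟨T, h1, h2, h3.pocket h1, h4, h5, by omega⟩
    | succ n hn ih =>
      obtain ⟨T, h1, h2, h3, h4, h5, h6⟩ := ih
      obtain ⟨z, k1, k2, k3, k4, k5, k6⟩ := step_inner h1 h2 h3
      exact ⟨_, k2, k3, k4, by rw [card_insert_of_notMem k1, h4], by rw [k6, h5], by omega⟩
  obtain ⟨T, h1, h2, -, h4⟩ := key
  exact ⟨T, h1, h2, h4⟩

theorem step_edge (h : Adm T) (he : Ear T) :
    ∃ z, z ∉ T ∧ Adm (insert z T) ∧ Ear (insert z T) ∧
      (facets (insert z T) up wi).card ≤ (facets T up wi).card + 1 ∧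
      (insert z T).filter (Ext (insert z T)) = T.filter (Ext T) := by
  obtain ⟨y, S0, hS0, hy, huniq⟩ := he
  have hs := h.simple
  have hc := hS0.card_eq hs
  obtain ⟨a, haS⟩ : (S0.erase y).Nonempty := by
    rw [← card_pos, card_erase_of_mem hy, hc]; norm_num
  obtain ⟨hay, haS0⟩ := mem_erase.1 haS
  have hn := sq_pos_of_ne hay
  obtain ⟨f, hf0, hf1, hf2⟩ := h.exists_sph
  have e1 : ∀ᶠ s in 𝓝[>] (0 : ℝ), ∀ S ∈ (facets T up wi).erase S0,
      0 < fn T up wi S (up (y + s • (a - y))) :=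
    (eventually_all_finset _).2 fun S hS => ev_pos (Or.inl
      ((mem_facets.1 (mem_erase.1 hS).2).fn_pos hs (hS0.1.1 hy) fun e =>
        (mem_erase.1 hS).1 (huniq S (mem_facets.1 (mem_erase.1 hS).2) e)))
  have e2 : ∀ᶠ s in 𝓝[>] (0 : ℝ), ∀ S ∈ T.powerset, f S (up (y + s • (a - y))) ≠ 0 :=
    (eventually_all_finset _).2 fun S _ => by
      simp only [fn_line]
      exact ev_ne (Or.inr (Or.inr (by rw [hf0, mul_one]; exact hn.ne')))
  have e3 : ∀ᶠ s in 𝓝[>] (0 : ℝ), s < 1 :=
    (gt_mem_nhds one_pos : ∀ᶠ s in 𝓝 (0 : ℝ), s < 1).filter_mono nhdsWithin_le_nhds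
  obtain ⟨s, hz, hav, hs1, hs0⟩ := (e1.and (e2.and (e3.and self_mem_nhdsWithin))).exists
  have hs0' : 0 < s := hs0
  set z := y + s • (a - y) with hzd
  obtain ⟨hzT, hA⟩ := h.insert_of hf1 hf2 hav
  have he : ∀ D : Dual ℝ E5, D wi = 0 → D (up z) = (1 - s) * D (up y) + s * D (up a) := by
    intro D hD
    rw [hzd, fn_line, fn_tg, hD]; ring
  have hin : fn T up wi S0 (up z) < 0 := by
    rw [hzd, fn_line, fn_tg, hS0.1.fn_zero y hy, hS0.1.fn_zero a haS0, hS0.1.fn_feas.1]
    have := mul_pos (mul_pos hs0' (sub_pos.2 hs1)) hn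
    nlinarith
  have hnew : ∀ S, Facet (insert z T) up wi S → z ∈ S →
      S = insert z (S0.erase y) ∨ S = insert z (S0.erase a) := by
    intro S hS hzS
    have hsub : S.erase z ⊆ S0 := by
      rcases new_facet hA hzT hS hzS with ⟨S', hS', hsub, hlt⟩ | ⟨D, hD, hpos, -, hlt⟩
      · by_cases hne : S' = S0
        · exact hne ▸ hsub
        · have := hz S' (mem_erase.2 ⟨hne, mem_facets.2 hS'⟩)
          linarith
      · have := mul_nonneg (sub_pos.2 hs1).le (hpos y (hS0.1.1 hy))
        have := mul_nonneg hs0'.le (hpos a (hS0.1.1 haS0))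
        linarith [he D hD]
    obtain ⟨i, hi, hie⟩ := eq_erase_of_subset hsub
      (by rw [card_erase_of_mem hzS, hS.card_eq hA.simple]) hc
    rw [← insert_erase hzS, hie]
    by_contra hcon
    have hiy : i ≠ y := fun e => hcon (Or.inl (by rw [e]))
    have hia : i ≠ a := fun e => hcon (Or.inr (by rw [e]))
    obtain ⟨c1, c2, c3⟩ := hS.isCo hA.simple hzS
    have hy' : y ∈ S.erase z := hie ▸ mem_erase.2 ⟨hiy.symm, hy⟩
    have ha' : a ∈ S.erase z := hie ▸ mem_erase.2 ⟨hia.symm, haS0⟩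
    have := he _ c1
    rw [c2, c3 y (mem_erase.1 hy').2 (mem_erase.1 hy').1,
      c3 a (mem_erase.1 ha').2 (mem_erase.1 ha').1] at this
    simp at this
  refine ⟨z, hzT, hA, ?_, ?_, ?_⟩
  · have hyz : y ≠ z := fun e => hzT (e ▸ hS0.1.1 hy)
    have hu : ∀ S, Facet (insert z T) up wi S → y ∈ S → S = insert z (S0.erase a) := by
      intro S hS hyS
      by_cases hzS : z ∈ S
      · refine (hnew S hS hzS).resolve_left fun e => ?_
        rw [e, mem_insert] at hyS
        exact hyS.elim hyz (notMem_erase _ _)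
      · obtain ⟨h1, h2⟩ := old_facet hS hzS
        rw [huniq S h1 hyS] at h2
        linarith
    obtain ⟨S1, hS1, hsub⟩ := hA.face_facet (face_single (mem_insert_of_mem (hS0.1.1 hy)))
    have hy1 := singleton_subset_iff.1 hsub
    exact ⟨y, S1, hS1, hy1, fun S hS hyS => by rw [hu S hS hyS, hu S1 hS1 hy1]⟩
  · have h1 := count_insert (T := T) z
    have h2 : ((facets T up wi).filter fun S => 0 ≤ fn T up wi S (up z)) ⊆
        (facets T up wi).erase S0 := fun S hS => mem_erase.2 ⟨fun e => by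
          have := (mem_filter.1 hS).2
          rw [e] at this
          linarith, (mem_filter.1 hS).1⟩
    have h3 := card_le_card h2
    rw [card_erase_of_mem (mem_facets.2 hS0)] at h3
    have h5 := card_pos.2 ⟨S0, mem_facets.2 hS0⟩
    have h6 : ((facets (insert z T) up wi).filter (z ∈ ·)) ⊆
        {insert z (S0.erase y), insert z (S0.erase a)} := by
      intro S hS
      simpa using hnew S (mem_facets.1 (mem_filter.1 hS).1) (mem_filter.1 hS).2
    have h7 := (card_le_card h6).trans card_le_two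
    omega
  · refine ext_insert hzT (K := {y, a}) (insert_subset (hS0.1.1 hy)
      (singleton_subset_iff.2 (hS0.1.1 haS0))) (by rw [card_pair hay.symm]; norm_num)
      (fun k => if k = y then 1 - s else s) (fun k _ => ?_) fun D hD => ?_
    · split_ifs
      · linarith
      · exact hs0'
    · rw [he D hD, sum_pair hay.symm]
      simp only [if_true, hay, if_false]
      ring

theorem exists_min {m n : ℕ} (hm : 4 ≤ m) (hn : m ≤ n) : ∃ T : Finset P, Adm T ∧
    T.card = n ∧ (T.filter (Ext T)).card = m ∧ (facets T up wi).card + 3 ≤ n := by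
  have key : ∃ T : Finset P, Adm T ∧ Ear T ∧ T.card = n ∧
      (T.filter (Ext T)).card = m ∧ (facets T up wi).card + 3 ≤ n := by
    induction n, hn using Nat.le_induction with
    | base =>
      obtain ⟨T, h1, -, h3, h4, h5, h6⟩ := phase_hull hm
      exact ⟨T, h1, h3, h4, h5, h6⟩
    | succ n hn ih =>
      obtain ⟨T, h1, h3, h4, h5, h6⟩ := ih
      obtain ⟨z, k1, k2, k4, k5, k6⟩ := step_edge h1 h3
      exact ⟨_, k2, k4, by rw [card_insert_of_notMem k1, h4], by rw [k6, h5], by omega⟩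
  obtain ⟨T, h1, -, h4⟩ := key
  exact ⟨T, h1, h4⟩

theorem choose_pred {n : ℕ} (hn : 1 ≤ n) : n.choose 2 = (n - 1).choose 2 + (n - 1) := by
  obtain ⟨k, rfl⟩ : ∃ k, n = k + 1 := ⟨n - 1, by omega⟩
  rw [Nat.choose_succ_succ', Nat.choose_one_right, Nat.add_sub_cancel, add_comm]

theorem exists_max' {m n : ℕ} (hm : 4 ≤ m) (hn : m ≤ n) : ∃ T : Finset P, Adm T ∧ NFC T ∧
    T.card = n ∧ (T.filter (Ext T)).card = m ∧
      (facets T up wi).card = (n - 1).choose 2 + 2 - m := by
  rcases (hm.trans hn).eq_or_lt with rfl | h5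
  · obtain rfl : m = 4 := by omega
    obtain ⟨T, h1, h2, -, h4, h5, h6⟩ := phase_hull (le_refl 4)
    have := h1.bounds.1
    refine ⟨T, h1, h2, h4, h5, ?_⟩
    have : Nat.choose (4 - 1) 2 = 3 := by decide
    omega
  · obtain ⟨T, h1, h2, h3, h4, h6⟩ := exists_max (m := n - 1) (r := n - m) (by omega) (by omega)
    have h7 := h1.bounds.2
    have e0 : T.card = n := by omega
    rw [e0] at h7
    have e1 := choose_pred (n := n) (by omega)
    have e2 := choose_pred (n := n - 1) (by omega)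
    have e3 := choose_pred (n := n - 1 - 1) (by omega)
    have e4 : n - 1 - 1 - 1 = n - 1 - 2 := by omega
    rw [e4] at e3
    exact ⟨T, h1, h2, e0, by omega, by omega⟩

theorem main (n m : ℕ) (hm : 4 ≤ m) (hn : m ≤ n) :
    IsLeast (sizes n m) (n - 3) ∧ IsGreatest (sizes n m) ((n - 1).choose 2 + 2 - m) ∧
    IsLeast (sizesGP n m) (3 * n - 2 * m - 3) ∧
    IsGreatest (sizesGP n m) ((n - 1).choose 2 + 2 - m) := by
  have up : ∀ t ∈ sizes n m, t ≤ (n - 1).choose 2 + 2 - m := by
    rintro t ⟨T, h1, h2, h3, rfl⟩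
    rw [admissible_iff] at h1
    rw [extremalCount_eq] at h3
    have := h1.bounds.2
    have e1 := choose_pred (n := n) (by omega)
    rw [h2, h3] at this
    rw [h1.DT_ncard]
    omega
  obtain ⟨T, t1, t2, t3, t4, t5⟩ := exists_max' hm hn
  refine ⟨⟨?_, ?_⟩, ⟨⟨T, (admissible_iff T).2 t1, t3, by rw [extremalCount_eq, t4],
    by rw [t1.DT_ncard, t5]⟩, up⟩, ⟨?_, ?_⟩, ⟨⟨T, (admissible_iff T).2 t1, (nfc_iff T).2 t2, t3,
    by rw [extremalCount_eq, t4], by rw [t1.DT_ncard, t5]⟩,
    fun t ⟨T, h1, _, h2⟩ => up t ⟨T, h1, h2⟩⟩⟩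
  · obtain ⟨T, h1, h2, h3, h4⟩ := exists_min hm hn
    have := h1.bounds.1
    exact ⟨T, (admissible_iff T).2 h1, h2, by rw [extremalCount_eq, h3],
      by rw [h1.DT_ncard]; omega⟩
  · rintro t ⟨T, h1, h2, -, rfl⟩
    rw [admissible_iff] at h1
    have := h1.bounds.1
    rw [h1.DT_ncard]
    omega
  · obtain ⟨T, h1, h2, h3, h4, h5⟩ := exists_min_gp hm hn
    have := h1.lower_gp h2
    exact ⟨T, (admissible_iff T).2 h1, (nfc_iff T).2 h2, h3, by rw [extremalCount_eq, h4],
      by rw [h1.DT_ncard]; omega⟩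
  · rintro t ⟨T, h1, h0, h2, h3, rfl⟩
    rw [admissible_iff] at h1
    rw [extremalCount_eq] at h3
    have := h1.lower_gp ((nfc_iff T).1 h0)
    rw [h1.DT_ncard]
    omega

end Pool.Agent.Lib.MP_68998a_co
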