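import Mathlib

namespace Pool.Agent.Lib.MP_68998a_co

/-- Points of Euclidean 3-space. -/
abbrev P := EuclideanSpace ℝ (Fin 3)

/-- The standing convention: `T` is not contained in a plane and no five points of `T` lie on a
common sphere. -/
def Admissible (T : Finset P) : Prop :=
  ¬ Coplanar ℝ (T : Set P) ∧ ∀ S ⊆ T, S.card = 5 → ¬ EuclideanGeometry.Cospherical (S : Set P)

/-- No four points of `T` lie in a common plane. -/
def NoFourCoplanar (T : Finset P) : Prop :=
  ∀ S ⊆ T, S.card = 4 → ¬ Coplanar ℝ (S : Set P)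

/-- The number of vertices of the convex hull of `T`. -/
noncomputable def extremalCount (T : Finset P) : ℕ :=
  ((convexHull ℝ (T : Set P)).extremePoints ℝ).ncard

/-- The Delaunay tetrahedra: non-degenerate 4-subsets of `T` whose circumsphere has no point of `T`
in its open interior. -/
def DT (T : Finset P) : Set (Finset P) :=
  {S | S ⊆ T ∧ S.card = 4 ∧ ¬ Coplanar ℝ (S : Set P) ∧
    ∃ (c : P) (r : ℝ), (∀ p ∈ S, dist p c = r) ∧ ∀ q ∈ T, ¬ dist q c < r}

/-- Sizes of Delaunay triangulations of admissible sets with `n` points, `m` of them extremal. -/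
def sizes (n m : ℕ) : Set ℕ :=
  {t | ∃ T : Finset P, Admissible T ∧ T.card = n ∧ extremalCount T = m ∧ (DT T).ncard = t}

/-- The same for admissible sets with no four coplanar points. -/
def sizesGP (n m : ℕ) : Set ℕ :=
  {t | ∃ T : Finset P, Admissible T ∧ NoFourCoplanar T ∧ T.card = n ∧ extremalCount T = m ∧
    (DT T).ncard = t}

end Pool.Agent.Lib.MP_68998a_co
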