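import Pool.Agent.Lib.MP_68998a_co.Abstract

/-! The lower bound theorem for simplicial 4-polytopes whose vertices are in general position,
through Gromov's combinatorial rigidity. -/

namespace Pool.Agent.Lib.MP_68998a_co

open Module Finset
open scoped Classical

variable {α E : Type*} [DecidableEq α] [AddCommGroup E] [Module ℝ E]

/-- general position in a 5-dimensional space -/
structure GP (V : Finset α) (u : α → E) : Prop where
  fin : Module.Finite ℝ E
  dim : finrank ℝ E = 4 + 1
  le : ∀ G ⊆ V, ∀ φ : Dual ℝ E, φ ≠ 0 → (∀ p ∈ G, φ (u p) = 0) → G.card ≤ 4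
  five : 5 ≤ V.card

/-- the interior vector -/
noncomputable def ws (V : Finset α) (u : α → E) : E := ∑ p ∈ V, u p

variable {V : Finset α} {u : α → E}

theorem GP.face_iff (h : GP V u) {G : Finset α} : Face V u (ws V u) G ↔
    G ⊆ V ∧ ∃ φ : Dual ℝ E, φ ≠ 0 ∧ (∀ p ∈ V, 0 ≤ φ (u p)) ∧ ∀ p ∈ G, φ (u p) = 0 := by
  constructor
  · rintro ⟨hG, φ, hφ, hz⟩
    refine ⟨hG, φ, ?_, hφ.2, hz⟩
    rintro rfl
    have := hφ.1
    simp at this
  · rintro ⟨hG, φ, hφ, hpos, hz⟩
    have h1 : 0 < φ (ws V u) := by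
      rw [ws, map_sum]
      apply sum_pos' hpos
      by_contra hn
      push Not at hn
      have := h.le V Subset.rfl φ hφ fun p hp => le_antisymm (hn p hp) (hpos p hp)
      have := h.five
      omega
    refine ⟨hG, (φ (ws V u))⁻¹ • φ, ⟨by simp [h1.ne'], fun p hp => ?_⟩, fun p hp => by
      simp [hz p hp]⟩
    simp only [LinearMap.smul_apply, smul_eq_mul]
    exact mul_nonneg (inv_nonneg.2 h1.le) (hpos p hp)

theorem GP.simple (h : GP V u) : Simple V u (ws V u) 4 :=
  ⟨h.fin, h.dim, fun G hG => by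
    obtain ⟨hG, φ, hφ, -, hz⟩ := h.face_iff.1 hG
    exact h.le G hG φ hφ hz⟩

theorem GP.exists_obj (h : GP V u) : ∃ c, Obj V u (ws V u) c ∧ Obj V u (ws V u) (-c) := by
  have hV : Spans u (ws V u) V := by
    intro D _ hz
    by_contra hn
    have := h.le V Subset.rfl D hn hz
    have := h.five
    omega
  obtain ⟨μ, -, ho⟩ := Pool.Agent.Lib.MP_68998a_co.exists_obj hV
  refine ⟨_, ho, ⟨fun D hD hc => ?_, fun S hS hn => ?_⟩⟩
  · by_contra hn
    push Not at hn
    rw [ws, map_sum, sum_eq_zero_iff_of_nonneg hn] at hD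
    have : D = 0 := hV D (by rw [ws, map_sum]; exact sum_eq_zero hD) hD
    simp [this] at hc
  · obtain ⟨D, h1, h2, h3⟩ := ho.gen S hS hn
    exact ⟨D, h1, h2, by simpa using h3⟩

theorem GP.mono (h : GP V u) {W : Finset α} (hW : W ⊆ V) (h5 : 5 ≤ W.card) : GP W u :=
  ⟨h.fin, h.dim, fun G hG => h.le G (hG.trans hW), h5⟩

theorem GP.face_sub (h : GP V u) {W G : Finset α} (hW : W ⊆ V) (h5 : 5 ≤ W.card)
    (hG : Face V u (ws V u) G) (hGW : G ⊆ W) : Face W u (ws W u) G := by
  obtain ⟨-, φ, hφ, hpos, hz⟩ := h.face_iff.1 hG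
  exact (h.mono hW h5).face_iff.2 ⟨hGW, φ, hφ, fun p hp => hpos p (hW hp), hz⟩

theorem facesK_self {w : E} {B : Finset α} (hB : Face V u w B) :
    (facesK V u w B B.card).card = 1 := by
  rw [card_eq_one]
  refine ⟨B, ?_⟩
  ext G
  simp only [facesK, mem_filter, mem_powersetCard, mem_singleton]
  constructor
  · rintro ⟨⟨-, h1⟩, -, h2⟩
    exact (eq_of_subset_of_card_le h2 h1.le).symm
  · rintro rfl
    exact ⟨⟨hB.1, rfl⟩, hB, Subset.rfl⟩

theorem card_union_compl {S N B : Finset α} (hN : N ⊆ S) (hB : B ⊆ S) :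
    (N ∪ B).card + (S \ N ∪ B).card = S.card + B.card := by
  rw [← card_union_add_card_inter]
  congr 2
  · ext p
    simp only [mem_union, mem_sdiff]
    constructor
    · rintro ((h | h) | (h | h))
      · exact hN h
      · exact hB h
      · exact h.1
      · exact hB h
    · intro h
      by_cases hp : p ∈ N
      · exact Or.inl (Or.inl hp)
      · exact Or.inr (Or.inl ⟨h, hp⟩)
  · ext p
    simp only [mem_inter, mem_union, mem_sdiff]
    tauto

/-- neighbours of a vertex -/
noncomputable def nb (V : Finset α) (u : α → E) (w : E) (v : α) : Finset α :=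
  (V.erase v).filter fun a => Face V u w {v, a}

theorem pair_inj {v a b : α} (ha : a ≠ v) (h : ({v, a} : Finset α) = {v, b}) : a = b := by
  have : a ∈ ({v, b} : Finset α) := h ▸ (by simp)
  simpa [ha] using this

theorem card_nb {w : E} {v : α} :
    (facesK V u w {v} 2).card = (nb V u w v).card := by
  have : facesK V u w {v} 2 = (nb V u w v).image fun a => {v, a} := by
    ext G
    simp only [facesK, nb, mem_filter, mem_powersetCard, mem_image, mem_erase, singleton_subset_iff]
    constructor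
    · rintro ⟨⟨h1, h2⟩, h3, h4⟩
      obtain ⟨x, y, hxy, rfl⟩ := card_eq_two.1 h2
      rcases mem_insert.1 h4 with rfl | h4
      · exact ⟨y, ⟨⟨hxy.symm, h1 (by simp)⟩, h3⟩, rfl⟩
      · rw [mem_singleton] at h4
        subst h4
        exact ⟨x, ⟨⟨hxy, h1 (by simp)⟩, by rwa [pair_comm]⟩, pair_comm _ _⟩
    · rintro ⟨a, ⟨⟨h1, h2⟩, h3⟩, rfl⟩
      exact ⟨⟨h3.1, card_pair h1.symm⟩, h3, by simp⟩
  rw [this, card_image_of_injOn]
  intro a ha b _ hab
  exact pair_inj (mem_erase.1 (mem_filter.1 ha).1).1 hab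

theorem GP.link (h : GP V u) {v : α} (hv : Face V u (ws V u) {v}) :
    (facesK V u (ws V u) {v} 3).card + 6 = 3 * (nb V u (ws V u) v).card ∧
    ((facets V u (ws V u)).filter ({v} ⊆ ·)).card + 4 = 2 * (nb V u (ws V u) v).card := by
  obtain ⟨c, ho, ho'⟩ := h.exists_obj
  have hs := h.simple
  rw [← card_nb]
  have a1 := card_facesK hs ho {v} 1
  have a2 := card_facesK hs ho {v} 2
  have a3 := card_facesK hs ho {v} 3
  have b1 := card_facesK hs ho' {v} 1
  have b2 := card_facesK hs ho' {v} 2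
  have c1 := facesK_self hv
  rw [card_singleton] at c1
  rw [c1] at a1 b1
  set F := (facets V u (ws V u)).filter ({v} ⊆ ·) with hF
  have key : ∀ S ∈ F, (Ng u (ws V u) c S ∪ {v}).card + (Ng u (ws V u) (-c) S ∪ {v}).card = 5 ∧
      1 ≤ (Ng u (ws V u) c S ∪ {v}).card ∧ 1 ≤ (Ng u (ws V u) (-c) S ∪ {v}).card := by
    intro S hS
    obtain ⟨hS1, hS2⟩ := mem_filter.1 hS
    rw [mem_facets] at hS1
    refine ⟨?_, card_pos.2 ⟨v, by simp⟩, card_pos.2 ⟨v, by simp⟩⟩
    rw [hS1.Ng_neg hs ho, card_union_compl (Ng_subset S) hS2, hS1.card_eq hs, card_singleton]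
  have e1 : ∑ S ∈ F, (cnt 4 (Ng u (ws V u) c S ∪ {v}).card 3 +
      3 * cnt 4 (Ng u (ws V u) c S ∪ {v}).card 1 + 3 * cnt 4 (Ng u (ws V u) (-c) S ∪ {v}).card 1) =
      ∑ S ∈ F, (2 * cnt 4 (Ng u (ws V u) c S ∪ {v}).card 2 +
        cnt 4 (Ng u (ws V u) (-c) S ∪ {v}).card 2) := by
    apply sum_congr rfl
    intro S hS
    obtain ⟨k1, k2, k3⟩ := key S hS
    generalize (Ng u (ws V u) c S ∪ {v}).card = j at *
    generalize (Ng u (ws V u) (-c) S ∪ {v}).card = j' at *
    obtain rfl : j' = 5 - j := by omega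
    have : j ≤ 4 := by omega
    interval_cases j <;> decide
  have e2 : ∑ S ∈ F, (1 +
      2 * cnt 4 (Ng u (ws V u) c S ∪ {v}).card 1 + 2 * cnt 4 (Ng u (ws V u) (-c) S ∪ {v}).card 1) =
      ∑ S ∈ F, (cnt 4 (Ng u (ws V u) c S ∪ {v}).card 2 +
        cnt 4 (Ng u (ws V u) (-c) S ∪ {v}).card 2) := by
    apply sum_congr rfl
    intro S hS
    obtain ⟨k1, k2, k3⟩ := key S hS
    generalize (Ng u (ws V u) c S ∪ {v}).card = j at *
    generalize (Ng u (ws V u) (-c) S ∪ {v}).card = j' at *
    obtain rfl : j' = 5 - j := by omega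
    have : j ≤ 4 := by omega
    interval_cases j <;> decide
  simp only [sum_add_distrib, ← mul_sum, ← a1, ← a2, ← a3, ← b1, ← b2, sum_const, smul_eq_mul,
    mul_one] at e1 e2
  omega

theorem GP.link_sub (h : GP V u) {v : α} (hv : Face V u (ws V u) {v}) {W : Finset α}
    (hW : W ⊆ V.erase v) (h3 : 3 ≤ W.card) :
    ((facesK V u (ws V u) {v} 3).filter (· ⊆ insert v W)).card + 6 ≤ 3 * W.card := by
  have hvW : v ∉ W := fun hx => (mem_erase.1 (hW hx)).1 rfl
  have hsub : insert v W ⊆ V :=
    insert_subset (singleton_subset_iff.1 hv.1) (hW.trans (erase_subset _ _))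
  rcases h3.eq_or_lt with h3 | h3
  · have h1 : (facesK V u (ws V u) {v} 3).filter (· ⊆ insert v W) ⊆
        ((insert v W).powersetCard 3).filter ({v} ⊆ ·) := by
      intro G hG
      simp only [facesK, mem_filter, mem_powersetCard] at hG ⊢
      exact ⟨⟨hG.2, hG.1.1.2⟩, hG.1.2.2⟩
    have h2 := card_le_card h1
    rw [card_interval (by simp), card_insert_of_notMem hvW, ← h3, card_singleton] at h2
    have : cnt (3 + 1) 1 3 = 3 := by decide
    omega
  · have h5 : 5 ≤ (insert v W).card := by rw [card_insert_of_notMem hvW]; omega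
    have h' := h.mono hsub h5
    have hv' := h.face_sub hsub h5 hv (by simp)
    have h1 : (facesK V u (ws V u) {v} 3).filter (· ⊆ insert v W) ⊆
        facesK (insert v W) u (ws (insert v W) u) {v} 3 := by
      intro G hG
      simp only [facesK, mem_filter, mem_powersetCard] at hG ⊢
      exact ⟨⟨hG.2, hG.1.1.2⟩, h.face_sub hsub h5 hG.1.2.1 hG.2, hG.1.2.2⟩
    have h2 := card_le_card h1
    have h4 := (h'.link hv').1
    have h6 : (nb (insert v W) u (ws (insert v W) u) v).card ≤ W.card := by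
      apply card_le_card
      intro a ha
      have := (mem_filter.1 ha).1
      rwa [erase_insert hvW] at this
    omega

theorem GP.rigid (h : GP V u) {c : E} (ho : Obj V u (ws V u) c) {S0 : Finset α}
    (hS0 : Facet V u (ws V u) S0) (hN0 : Ng u (ws V u) c S0 ⊆ ∅) :
    ∀ (k : ℕ) (A : Finset α), A.card = k → (∀ a ∈ A, Face V u (ws V u) {a}) → Disjoint S0 A →
      4 * A.card ≤ ((facesK V u (ws V u) ∅ 2).filter fun e => ¬ Disjoint e A).card := by
  have hs := h.simple
  intro k
  induction k using Nat.strong_induction_on with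
  | _ k ih =>
    intro A hk hA hd
    rcases A.eq_empty_or_nonempty with rfl | ⟨a0, ha0⟩
    · simp
    obtain ⟨S1, hS1, hsub1, -⟩ := (hA a0 ha0).exists_facet hs ho
    obtain ⟨S, hS, hmin⟩ := exists_min_image
      ((facets V u (ws V u)).filter fun S => ¬ Disjoint S A) (fun S => fn V u (ws V u) S c)
      ⟨S1, mem_filter.2 ⟨mem_facets.2 hS1,
        not_disjoint_iff.2 ⟨a0, singleton_subset_iff.1 hsub1, ha0⟩⟩⟩
    obtain ⟨hSf, hSA⟩ := mem_filter.1 hS
    rw [mem_facets] at hSf
    obtain ⟨p, hp⟩ : (Ng u (ws V u) c S).Nonempty := by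
      by_contra hn
      rw [not_nonempty_iff_eq_empty] at hn
      have := facet_unique hs hSf hS0 (fun p hp => hS0.co_ne hs ho hp) (empty_subset _)
        (empty_subset _) (by rw [hn]) hN0
      exact hSA (this ▸ hd)
    obtain ⟨S', hS', hsub', hlt⟩ := hSf.improve hs ho hp
    have hd' : Disjoint S' A := by
      by_contra hn
      have := hmin S' (mem_filter.2 ⟨mem_facets.2 hS', hn⟩)
      linarith
    have hpS : p ∈ S := Ng_subset S hp
    have hpA : p ∈ A := by
      obtain ⟨x, hx1, hx2⟩ := not_disjoint_iff.1 hSA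
      by_cases hxp : x = p
      · exact hxp ▸ hx2
      · exact absurd hx2 (disjoint_left.1 hd' (hsub' (mem_erase.2 ⟨hxp, hx1⟩)))
    obtain ⟨v, hv⟩ : (S.erase p).Nonempty := by
      rw [← card_pos, card_erase_of_mem hpS, hSf.card_eq hs]; norm_num
    obtain ⟨hvp, hvS⟩ := mem_erase.1 hv
    have hvS' : v ∈ S' := hsub' hv
    have hvA : v ∉ A := disjoint_left.1 hd' hvS'
    have hvF : Face V u (ws V u) {v} := hSf.1.mono (singleton_subset_iff.2 hvS)
    set L := nb V u (ws V u) v with hL
    set A1 := A ∩ L with hA1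
    have hpL : p ∈ L := mem_filter.2 ⟨mem_erase.2 ⟨Ne.symm hvp, hSf.1.1 hpS⟩,
      hSf.1.mono (insert_subset hvS (singleton_subset_iff.2 hpS))⟩
    have hA1pos : 0 < A1.card := card_pos.2 ⟨p, mem_inter.2 ⟨hpA, hpL⟩⟩
    have hA2 : (A \ L).card + A1.card = A.card := card_sdiff_add_card_inter A L
    have hLW : (L \ A).card + A1.card = L.card := by
      rw [hA1, inter_comm]; exact card_sdiff_add_card_inter L A
    have ih2 := ih (A \ L).card (by omega) (A \ L) rfl (fun a ha => hA a (mem_sdiff.1 ha).1)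
      (hd.mono_right sdiff_subset)
    have hLV : L ⊆ V.erase v := filter_subset _ _
    have hW3 : 3 ≤ (L \ A).card := by
      have : S'.erase v ⊆ L \ A := by
        intro x hx
        obtain ⟨hxv, hxS⟩ := mem_erase.1 hx
        exact mem_sdiff.2 ⟨mem_filter.2 ⟨mem_erase.2 ⟨hxv, hS'.1.1 hxS⟩,
          hS'.1.mono (insert_subset hvS' (singleton_subset_iff.2 hxS))⟩,
          disjoint_left.1 hd' hxS⟩
      have h1 := card_le_card this
      rw [card_erase_of_mem hvS', hS'.card_eq hs] at h1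
      exact h1
    have hlink := (h.link hvF).1
    rw [← hL] at hlink
    have hsubl := h.link_sub hvF (sdiff_subset.trans hLV) hW3
    set T3 := facesK V u (ws V u) {v} 3 with hT3
    have hsplit := card_filter_add_card_filter_not (s := T3) (fun G => G ⊆ insert v (L \ A))
    set T3' := T3.filter fun G => ¬ G ⊆ insert v (L \ A) with hT3'
    have hT3L : ∀ G ∈ T3, G.erase v ⊆ L ∧ v ∈ G ∧ G.card = 3 ∧ Face V u (ws V u) G := by
      intro G hG
      simp only [hT3, facesK, mem_filter, mem_powersetCard, singleton_subset_iff] at hG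
      refine ⟨fun x hx => ?_, hG.2.2, hG.1.2, hG.2.1⟩
      obtain ⟨hxv, hxG⟩ := mem_erase.1 hx
      exact mem_filter.2 ⟨mem_erase.2 ⟨hxv, hG.1.1 hxG⟩,
        hG.2.1.mono (insert_subset hG.2.2 (singleton_subset_iff.2 hxG))⟩
    set E1 : Finset (Finset α) := A1.image fun a => {v, a} with hE1
    set E2 : Finset (Finset α) := T3'.image fun G => G.erase v with hE2
    set E3 := (facesK V u (ws V u) ∅ 2).filter fun e => ¬ Disjoint e (A \ L) with hE3
    have c1 : E1.card = A1.card := by
      apply card_image_of_injOn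
      intro a ha b _ hab
      exact pair_inj (mem_erase.1 (hLV (mem_inter.1 ha).2)).1 hab
    have c2 : E2.card = T3'.card := by
      apply card_image_of_injOn
      intro G hG G' hG' hGG
      have g1 := (hT3L G (mem_filter.1 hG).1).2.1
      have g2 := (hT3L G' (mem_filter.1 hG').1).2.1
      simp only at hGG
      rw [← insert_erase g1, ← insert_erase g2, hGG]
    have d12 : Disjoint E1 E2 := by
      rw [disjoint_left]
      intro e he1 he2
      obtain ⟨a, -, rfl⟩ := mem_image.1 he1
      obtain ⟨G, -, hG⟩ := mem_image.1 he2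
      have : v ∈ G.erase v := hG ▸ (by simp)
      exact notMem_erase _ _ this
    have d3 : Disjoint (E1 ∪ E2) E3 := by
      rw [disjoint_left]
      intro e he he3
      apply (mem_filter.1 he3).2
      rw [disjoint_left]
      intro x hx hxA0
      obtain ⟨hxA, hxL⟩ := mem_sdiff.1 hxA0
      rcases mem_union.1 he with he | he
      · obtain ⟨a, ha, rfl⟩ := mem_image.1 he
        rcases mem_insert.1 hx with hx | hx
        · exact hvA (hx ▸ hxA)
        · rw [mem_singleton] at hx
          exact hxL (hx ▸ (mem_inter.1 ha).2)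
      · obtain ⟨G, hG, rfl⟩ := mem_image.1 he
        exact hxL ((hT3L G (mem_filter.1 hG).1).1 hx)
    have hsubE : E1 ∪ E2 ∪ E3 ⊆ (facesK V u (ws V u) ∅ 2).filter fun e => ¬ Disjoint e A := by
      intro e he
      rcases mem_union.1 he with he | he
      · rcases mem_union.1 he with he | he
        · obtain ⟨a, ha, rfl⟩ := mem_image.1 he
          obtain ⟨haA, haL⟩ := mem_inter.1 ha
          obtain ⟨ha1, ha2⟩ := mem_filter.1 haL
          refine mem_filter.2 ⟨mem_filter.2 ⟨mem_powersetCard.2 ⟨ha2.1,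
            card_pair (mem_erase.1 ha1).1.symm⟩, ha2, empty_subset _⟩, ?_⟩
          exact not_disjoint_iff.2 ⟨a, by simp, haA⟩
        · obtain ⟨G, hG, rfl⟩ := mem_image.1 he
          obtain ⟨hG1, hG2⟩ := mem_filter.1 hG
          obtain ⟨g1, g2, g3, g4⟩ := hT3L G hG1
          refine mem_filter.2 ⟨mem_filter.2 ⟨mem_powersetCard.2 ⟨(erase_subset _ _).trans g4.1,
            by rw [card_erase_of_mem g2, g3]⟩, g4.mono (erase_subset _ _), empty_subset _⟩, ?_⟩
          intro hdis
          apply hG2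
          intro x hx
          by_cases hxv : x = v
          · rw [hxv]; exact mem_insert_self _ _
          · have hx' := mem_erase.2 ⟨hxv, hx⟩
            exact mem_insert_of_mem (mem_sdiff.2 ⟨g1 hx', disjoint_left.1 hdis hx'⟩)
      · obtain ⟨he1, he2⟩ := mem_filter.1 he
        exact mem_filter.2 ⟨he1, fun hdis => he2 (hdis.mono_right sdiff_subset)⟩
    have hfin := card_le_card hsubE
    rw [card_union_of_disjoint d3, card_union_of_disjoint d12, c1, c2] at hfin
    omega

theorem facesK_one {w : E} (hall : ∀ p ∈ V, Face V u w {p}) :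
    (facesK V u w ∅ 1).card = V.card := by
  have : facesK V u w ∅ 1 = V.powersetCard 1 := by
    apply filter_true_of_mem
    intro G hG
    obtain ⟨h1, h2⟩ := mem_powersetCard.1 hG
    obtain ⟨p, rfl⟩ := card_eq_one.1 h2
    exact ⟨hall p (singleton_subset_iff.1 h1), empty_subset _⟩
  rw [this, card_powersetCard, Nat.choose_one_right]

/-- lower bound theorem, facet form -/
theorem GP.lbt (h : GP V u) (hall : ∀ p ∈ V, Face V u (ws V u) {p}) :
    3 * V.card ≤ (facets V u (ws V u)).card + 10 := by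
  obtain ⟨c, ho, ho'⟩ := h.exists_obj
  have hs := h.simple
  obtain ⟨p0, hp0⟩ : V.Nonempty := card_pos.1 (by have := h.five; omega)
  have hem : Face V u (ws V u) ∅ := (hall p0 hp0).mono (empty_subset _)
  obtain ⟨S0, hS0, -, hN0⟩ := hem.exists_facet hs ho
  have r := h.rigid ho hS0 hN0 _ (V \ S0) rfl (fun a ha => hall a (mem_sdiff.1 ha).1)
    disjoint_sdiff
  have hsplit := card_filter_add_card_filter_not (s := facesK V u (ws V u) ∅ 2)
    (fun e => Disjoint e (V \ S0))
  have h6 : S0.powersetCard 2 ⊆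
      (facesK V u (ws V u) ∅ 2).filter fun e => Disjoint e (V \ S0) := by
    intro e he
    obtain ⟨h1, h2⟩ := mem_powersetCard.1 he
    exact mem_filter.2 ⟨mem_filter.2 ⟨mem_powersetCard.2 ⟨h1.trans hS0.1.1, h2⟩, hS0.1.mono h1,
      empty_subset _⟩, disjoint_sdiff.mono_left h1⟩
  have h7 := card_le_card h6
  rw [card_powersetCard, hS0.card_eq hs] at h7
  have h8 : Nat.choose 4 2 = 6 := by decide
  have h9 := card_sdiff_add_card_eq_card hS0.1.1
  rw [hS0.card_eq hs] at h9
  have a0 := card_facesK hs ho ∅ 0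
  have a1 := card_facesK hs ho ∅ 1
  have a2 := card_facesK hs ho ∅ 2
  have b0 := card_facesK hs ho' ∅ 0
  have b1 := card_facesK hs ho' ∅ 1
  have c0 := facesK_self hem
  rw [card_empty] at c0
  rw [c0] at a0 b0
  rw [facesK_one hall] at a1 b1
  rw [filter_true_of_mem (fun _ _ => empty_subset _)] at a0 a1 a2 b0 b1
  simp only [union_empty] at a0 a1 a2 b0 b1
  have e1 : ∑ S ∈ facets V u (ws V u), (1 + 2 * cnt 4 (Ng u (ws V u) c S).card 1 +
      3 * cnt 4 (Ng u (ws V u) (-c) S).card 0) =
      ∑ S ∈ facets V u (ws V u), (cnt 4 (Ng u (ws V u) c S).card 2 +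
        3 * cnt 4 (Ng u (ws V u) c S).card 0 + cnt 4 (Ng u (ws V u) (-c) S).card 1) := by
    apply sum_congr rfl
    intro S hS
    rw [mem_facets] at hS
    have k1 : (Ng u (ws V u) c S).card + (Ng u (ws V u) (-c) S).card = 4 := by
      rw [hS.Ng_neg hs ho, add_comm, card_sdiff_add_card_eq_card (Ng_subset S), hS.card_eq hs]
    generalize (Ng u (ws V u) c S).card = j at *
    generalize (Ng u (ws V u) (-c) S).card = j' at *
    obtain rfl : j' = 4 - j := by omega
    have : j ≤ 4 := by omega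
    interval_cases j <;> decide
  simp only [sum_add_distrib, ← mul_sum, ← a0, ← a1, ← a2, ← b0, ← b1, sum_const, smul_eq_mul,
    mul_one] at e1
  omega

end Pool.Agent.Lib.MP_68998a_co
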