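import Pool.Agent.Lib.MP_68998a_co.Defs
import Pool.Agent.Lib.MP_68998a_co.LBT

/-! Translation of the Delaunay triangulation into the abstract setting; the three bounds. -/

namespace Pool.Agent.Lib.MP_68998a_co

open Module Finset
open scoped Classical RealInnerProductSpace

abbrev E5 := ℝ × P × ℝ

noncomputable def up (p : P) : E5 := (1, p, ‖p‖ ^ 2)

def wi : E5 := (0, 0, 1)

theorem finrank_E5 : finrank ℝ E5 = 4 + 1 := by
  simp [Module.finrank_prod]

noncomputable def mkf (b : ℝ) (a : P) (g : ℝ) : Dual ℝ E5 where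
  toFun x := b * x.1 + ⟪a, x.2.1⟫ + g * x.2.2
  map_add' x y := by simp [inner_add_right]; ring
  map_smul' s x := by simp [inner_smul_right]; ring

theorem mkf_apply (b : ℝ) (a : P) (g : ℝ) (x : E5) :
    mkf b a g x = b * x.1 + ⟪a, x.2.1⟫ + g * x.2.2 := rfl

theorem mkf_up (b : ℝ) (a : P) (g : ℝ) (p : P) :
    mkf b a g (up p) = b + ⟪a, p⟫ + g * ‖p‖ ^ 2 := by simp [mkf_apply, up]

theorem mkf_wi (b : ℝ) (a : P) (g : ℝ) : mkf b a g wi = g := by simp [mkf_apply, wi]

theorem exists_inner (l : P →ₗ[ℝ] ℝ) : ∃ a : P, ∀ x, l x = ⟪a, x⟫ :=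
  ⟨(InnerProductSpace.toDual ℝ P).symm (LinearMap.toContinuousLinearMap l), fun x => by simp⟩

theorem exists_mkf (φ : Dual ℝ E5) : ∃ b a g, φ = mkf b a g := by
  obtain ⟨a, ha⟩ := exists_inner (φ ∘ₗ (LinearMap.inr ℝ ℝ (P × ℝ)) ∘ₗ (LinearMap.inl ℝ P ℝ))
  refine ⟨φ (1, 0, 0), a, φ (0, 0, 1), ?_⟩
  refine LinearMap.ext fun ⟨x0, x, x4⟩ => ?_
  have h : ((x0, x, x4) : E5) = x0 • (1, 0, 0) + (0, x, 0) + x4 • (0, 0, 1) := by simp
  rw [mkf_apply, h, map_add, map_add, map_smul, map_smul, ← ha]
  simp
  ring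

theorem mkf_eq_zero {b : ℝ} {a : P} {g : ℝ} (hb : b = 0) (ha : a = 0) (hg : g = 0) :
    mkf b a g = 0 := by
  subst hb ha hg
  refine LinearMap.ext fun x => ?_
  simp [mkf_apply]

theorem continuous_up (φ : Dual ℝ E5) : Continuous fun p : P => φ (up p) := by
  obtain ⟨b, a, g, rfl⟩ := exists_mkf φ
  simp only [mkf_up]
  fun_prop

theorem spans_iff (S : Finset P) : Spans up wi S ↔ ¬ Coplanar ℝ (S : Set P) := by
  rw [coplanar_iff_finrank_le_two]
  constructor
  · intro h hc
    have h1 : vectorSpan ℝ (S : Set P) < ⊤ := by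
      apply lt_top_iff_ne_top.2
      intro ht
      rw [ht, finrank_top] at hc
      simp at hc
    obtain ⟨f, hf, hle⟩ := Submodule.exists_le_ker_of_lt_top _ h1
    obtain ⟨a, ha⟩ := exists_inner f
    obtain ⟨b, hb⟩ : ∃ b, ∀ p ∈ S, b + f p = 0 := by
      rcases S.eq_empty_or_nonempty with rfl | ⟨p0, hp0⟩
      · exact ⟨0, by simp⟩
      · refine ⟨-f p0, fun p hp => ?_⟩
        have := hle (vsub_mem_vectorSpan ℝ (mem_coe.2 hp) (mem_coe.2 hp0))
        rw [LinearMap.mem_ker, vsub_eq_sub, map_sub] at this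
        linarith
    have h2 := h (mkf b a 0) (mkf_wi _ _ _) fun p hp => by
      rw [mkf_up, ← ha]; linarith [hb p hp]
    apply hf
    ext1 x
    have := LinearMap.congr_fun h2 (0, x, 0)
    rw [mkf_apply] at this
    simpa [ha] using this
  · intro h D hD hz
    obtain ⟨b, a, g, rfl⟩ := exists_mkf D
    rw [mkf_wi] at hD
    subst hD
    simp only [mkf_up, zero_mul, add_zero] at hz
    have ht : vectorSpan ℝ (S : Set P) = ⊤ := by
      apply Submodule.eq_top_of_finrank_eq
      have := Submodule.finrank_le (vectorSpan ℝ (S : Set P))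
      simp only [finrank_euclideanSpace, Fintype.card_fin] at this ⊢
      omega
    have ha : a = 0 := by
      have h1 : vectorSpan ℝ (S : Set P) ≤ LinearMap.ker (innerₛₗ ℝ a) := by
        rw [vectorSpan_def, Submodule.span_le]
        rintro x ⟨p, hp, q, hq, rfl⟩
        simp only [vsub_eq_sub, SetLike.mem_coe, LinearMap.mem_ker, innerₛₗ_apply_apply,
          inner_sub_right]
        linarith [hz p hp, hz q hq]
      have := h1 (ht ▸ Submodule.mem_top : a ∈ vectorSpan ℝ (S : Set P))
      simpa using this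
    obtain ⟨p, hp⟩ : S.Nonempty := by
      rw [nonempty_iff_ne_empty]
      rintro rfl
      apply h
      rw [coe_empty, vectorSpan_empty, finrank_bot]
      norm_num
    have hb := hz p hp
    rw [ha, inner_zero_left, add_zero] at hb
    exact mkf_eq_zero hb ha rfl

theorem sphere_fn (c : P) (k : ℝ) :
    ∃ φ : Dual ℝ E5, φ wi = 1 ∧ ∀ p, φ (up p) = dist p c ^ 2 - k := by
  refine ⟨mkf (‖c‖ ^ 2 - k) ((-2 : ℝ) • c) 1, mkf_wi _ _ _, fun p => ?_⟩
  rw [mkf_up, dist_eq_norm, norm_sub_sq_real, inner_smul_left, real_inner_comm]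
  simp
  ring

theorem fn_sphere {φ : Dual ℝ E5} (h : φ wi = 1) :
    ∃ (c : P) (k : ℝ), ∀ p, φ (up p) = dist p c ^ 2 - k := by
  obtain ⟨b, a, g, rfl⟩ := exists_mkf φ
  rw [mkf_wi] at h
  subst h
  refine ⟨(-1 / 2 : ℝ) • a, ‖(-1 / 2 : ℝ) • a‖ ^ 2 - b, fun p => ?_⟩
  rw [mkf_up, dist_eq_norm, norm_sub_sq_real, inner_smul_right, real_inner_comm]
  ring

/-- functional form of the standing convention -/
structure Adm (T : Finset P) : Prop where
  sp : Spans up wi T
  le : ∀ S ⊆ T, ∀ φ : Dual ℝ E5, φ wi = 1 → (∀ p ∈ S, φ (up p) = 0) → S.card ≤ 4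

theorem admissible_iff (T : Finset P) : Admissible T ↔ Adm T := by
  constructor
  · rintro ⟨h1, h2⟩
    refine ⟨(spans_iff T).2 h1, fun S hS φ hφ hz => ?_⟩
    by_contra hn
    obtain ⟨S', hS', hc⟩ := exists_subset_card_eq (n := 5) (s := S) (by omega)
    apply h2 S' (hS'.trans hS) hc
    obtain ⟨c, k, hk⟩ := fn_sphere hφ
    refine ⟨c, Real.sqrt k, fun p hp => ?_⟩
    have := hz p (hS' hp)
    rw [hk] at this
    rw [← Real.sqrt_sq (dist_nonneg (x := p) (y := c))]
    congr 1
    linarith
  · intro h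
    refine ⟨(spans_iff T).1 h.sp, fun S hS hc ⟨c, r, hr⟩ => ?_⟩
    obtain ⟨φ, hφ, hk⟩ := sphere_fn c (r ^ 2)
    have := h.le S hS φ hφ fun p hp => by rw [hk, hr p hp, sub_self]
    omega

theorem nfc_iff (T : Finset P) :
    NoFourCoplanar T ↔ ∀ S ⊆ T, S.card = 4 → Spans up wi S := by
  simp only [NoFourCoplanar, spans_iff]

variable {T : Finset P}

theorem Adm.simple (h : Adm T) : Simple T up wi 4 :=
  ⟨inferInstance, finrank_E5, fun G ⟨hG, φ, hφ, hz⟩ => h.le G hG φ hφ.1 hz⟩

theorem Adm.four (h : Adm T) : 4 ≤ T.card := by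
  by_contra hn
  exact not_spans_of_card_lt inferInstance finrank_E5 (not_le.1 hn) h.sp

theorem Adm.DT_eq (h : Adm T) : DT T = (facets T up wi : Set (Finset P)) := by
  ext S
  rw [mem_coe, mem_facets]
  constructor
  · rintro ⟨hS, hc, hn, c, r, h1, h2⟩
    obtain ⟨φ, hφ, hk⟩ := sphere_fn c (r ^ 2)
    obtain ⟨p0, hp0⟩ : S.Nonempty := card_pos.1 (by omega)
    have hr : 0 ≤ r := h1 p0 hp0 ▸ dist_nonneg
    refine ⟨⟨hS, φ, ⟨hφ, fun q hq => ?_⟩, fun p hp => by rw [hk, h1 p hp, sub_self]⟩,
      (spans_iff S).2 hn⟩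
    rw [hk]
    have := pow_le_pow_left₀ hr (not_lt.1 (h2 q hq)) 2
    linarith
  · intro hS
    refine ⟨hS.1.1, hS.card_eq h.simple, (spans_iff S).1 hS.2, ?_⟩
    obtain ⟨-, φ, hφ, hz⟩ := hS.1
    obtain ⟨c, k, hk⟩ := fn_sphere hφ.1
    refine ⟨c, Real.sqrt k, fun p hp => ?_, fun q hq => ?_⟩
    · have := hz p hp
      rw [hk] at this
      rw [← Real.sqrt_sq (dist_nonneg (x := p) (y := c))]
      congr 1
      linarith
    · have := hφ.2 q hq
      rw [hk] at this
      rw [not_lt, ← Real.sqrt_sq (dist_nonneg (x := q) (y := c))]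
      exact Real.sqrt_le_sqrt (by linarith)

theorem Adm.DT_ncard (h : Adm T) : (DT T).ncard = (facets T up wi).card := by
  rw [h.DT_eq, Set.ncard_coe_finset]

/-- functional form of being a vertex of the hull -/
def Ext (T : Finset P) (p : P) : Prop :=
  ∃ D : Dual ℝ E5, D wi = 0 ∧ D (up p) = 0 ∧ ∀ q ∈ T, q ≠ p → 0 < D (up q)

theorem ext_iff (p : P) :
    p ∈ (convexHull ℝ (T : Set P)).extremePoints ℝ ↔ p ∈ T ∧ Ext T p := by
  constructor
  · intro h
    have hpT : p ∈ T := extremePoints_convexHull_subset h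
    refine ⟨hpT, ?_⟩
    rw [(convex_convexHull ℝ _).mem_extremePoints_iff_mem_sdiff_convexHull_sdiff] at h
    have h1 : p ∉ convexHull ℝ ((T.erase p : Finset P) : Set P) := by
      intro h2
      apply h.2
      refine convexHull_mono ?_ h2
      intro x hx
      obtain ⟨hx1, hx2⟩ := mem_erase.1 (mem_coe.1 hx)
      exact ⟨subset_convexHull ℝ _ (mem_coe.2 hx2), hx1⟩
    obtain ⟨f, s, hf1, hf2⟩ := geometric_hahn_banach_point_closed (convex_convexHull ℝ _)
      ((finite_toSet _).isClosed_convexHull ℝ) h1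
    obtain ⟨a, ha⟩ := exists_inner (f : P →ₗ[ℝ] ℝ)
    simp only [ContinuousLinearMap.coe_coe] at ha
    refine ⟨mkf (-f p) a 0, mkf_wi _ _ _, by rw [mkf_up, ← ha]; ring, fun q hq hqp => ?_⟩
    have := hf2 q (subset_convexHull ℝ _ (mem_coe.2 (mem_erase.2 ⟨hqp, hq⟩)))
    rw [mkf_up, ← ha]
    linarith
  · rintro ⟨hpT, D, hD, hp, hpos⟩
    obtain ⟨b, a, g, rfl⟩ := exists_mkf D
    rw [mkf_wi] at hD
    subst hD
    simp only [mkf_up, zero_mul, add_zero] at hp hpos
    have hconv : Convex ℝ {x : P | 0 < b + ⟪a, x⟫ ∨ x = p} := by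
      intro x hx y hy s t hs ht hst
      have e : b + ⟪a, s • x + t • y⟫ = s * (b + ⟪a, x⟫) + t * (b + ⟪a, y⟫) := by
        rw [inner_add_right, inner_smul_right, inner_smul_right]
        linear_combination (-b) * hst
      have hx0 : 0 ≤ b + ⟪a, x⟫ := by rcases hx with hx | rfl; exacts [hx.le, hp.ge]
      have hy0 : 0 ≤ b + ⟪a, y⟫ := by rcases hy with hy | rfl; exacts [hy.le, hp.ge]
      rcases hs.eq_or_lt with rfl | hs'
      · rw [zero_add] at hst
        subst hst
        simpa using hy
      rcases ht.eq_or_lt with rfl | ht'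
      · rw [add_zero] at hst
        subst hst
        simpa using hx
      rcases hx with hx | rfl
      · left
        rw [e]
        have := mul_pos hs' hx
        have := mul_nonneg ht hy0
        linarith
      rcases hy with hy | rfl
      · left
        rw [e]
        have := mul_pos ht' hy
        have := mul_nonneg hs hx0
        linarith
      · right
        rw [← add_smul, hst, one_smul]
    have hsub : convexHull ℝ (T : Set P) ⊆ {x : P | 0 < b + ⟪a, x⟫ ∨ x = p} := by
      apply convexHull_min _ hconv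
      intro q hq
      by_cases hqp : q = p
      · exact Or.inr hqp
      · exact Or.inl (hpos q hq hqp)
    rw [mem_extremePoints_iff_left]
    refine ⟨subset_convexHull ℝ _ (mem_coe.2 hpT), fun x hx y hy ⟨s, t, hs, ht, hst, hxy⟩ => ?_⟩
    have e : b + ⟪a, s • x + t • y⟫ = s * (b + ⟪a, x⟫) + t * (b + ⟪a, y⟫) := by
      rw [inner_add_right, inner_smul_right, inner_smul_right]
      linear_combination (-b) * hst
    rw [hxy, hp] at e
    rcases hsub hx with hx | hx
    · have hy0 : 0 ≤ b + ⟪a, y⟫ := by rcases hsub hy with hy | rfl; exacts [hy.le, hp.ge]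
      have := mul_pos hs hx
      have := mul_nonneg ht.le hy0
      linarith
    · exact hx

theorem extremalCount_eq (T : Finset P) : extremalCount T = (T.filter (Ext T)).card := by
  rw [extremalCount, ← Set.ncard_coe_finset]
  congr 1
  ext p
  rw [ext_iff, mem_coe, mem_filter]

theorem face_single {p : P} (hp : p ∈ T) : Face T up wi {p} := by
  obtain ⟨φ, hφ, hk⟩ := sphere_fn p 0
  refine ⟨singleton_subset_iff.2 hp, φ, ⟨hφ, fun q _ => ?_⟩, fun q hq => ?_⟩
  · rw [hk, sub_zero]; positivity
  · rw [mem_singleton.1 hq, hk]; simp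

theorem Adm.bounds (h : Adm T) :
    T.card ≤ (facets T up wi).card + 3 ∧
    (facets T up wi).card + T.card + (T.filter (Ext T)).card ≤ T.card.choose 2 + 3 := by
  have hs := h.simple
  obtain ⟨μ, hμ, ho⟩ := exists_obj h.sp
  set c := ∑ p ∈ T, μ p • up p with hc
  have h4 := h.four
  obtain ⟨p0, hp0⟩ : T.Nonempty := card_pos.1 (by omega)
  have hem : Face T up wi ∅ := (face_single hp0).mono (empty_subset _)
  have a0 := card_facesK hs ho ∅ 0
  have a1 := card_facesK hs ho ∅ 1
  have a2 := card_facesK hs ho ∅ 2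
  have c0 := facesK_self hem
  rw [card_empty] at c0
  rw [c0] at a0
  rw [facesK_one fun p hp => face_single hp] at a1
  rw [filter_true_of_mem (fun _ _ => empty_subset _)] at a0 a1 a2
  simp only [union_empty] at a0 a1 a2
  have hval : ∀ D : Dual ℝ E5, D c = ∑ p ∈ T, μ p * D (up p) := by
    intro D
    simp [hc, map_sum]
  have hlt : ∀ S ∈ facets T up wi, (Ng up wi c S).card ≤ 3 := by
    intro S hS
    rw [mem_facets] at hS
    by_contra hn
    have hN : Ng up wi c S = S :=
      eq_of_subset_of_card_le (Ng_subset S) (by rw [hS.card_eq hs]; omega)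
    have e := expand hs.fin hs.dim hS.2 (hS.card_eq hs) (mkf 1 0 0) (mkf_wi _ _ _) c
    rw [hval] at e
    simp only [mkf_up, inner_zero_left, zero_mul, add_zero, mul_one, one_mul] at e
    have h1 : 0 < ∑ p ∈ T, μ p := sum_pos hμ ⟨p0, hp0⟩
    have h2 : ∑ p ∈ S, co up wi S p c ≤ 0 := sum_nonpos fun p hp => by
      rw [← hN] at hp; exact (mem_filter.1 hp).2.le
    linarith
  constructor
  · have e1 : ∑ S ∈ facets T up wi, cnt 4 (Ng up wi c S).card 1 ≤
        ∑ S ∈ facets T up wi, (1 + 3 * cnt 4 (Ng up wi c S).card 0) := by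
      apply sum_le_sum
      intro S hS
      have := hlt S hS
      generalize (Ng up wi c S).card = j at *
      interval_cases j <;> decide
    simp only [sum_add_distrib, ← mul_sum, ← a0, ← a1, sum_const, smul_eq_mul, mul_one] at e1
    omega
  · have e1 : ∑ S ∈ facets T up wi, (1 + 2 * cnt 4 (Ng up wi c S).card 1) =
        ∑ S ∈ facets T up wi, (cnt 4 (Ng up wi c S).card 2 + 3 * cnt 4 (Ng up wi c S).card 0 +
          if (Ng up wi c S).card = 3 then 1 else 0) := by
      apply sum_congr rfl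
      intro S hS
      have := hlt S hS
      generalize (Ng up wi c S).card = j at *
      interval_cases j <;> decide
    simp only [sum_add_distrib, ← mul_sum, ← a0, ← a1, ← a2, sum_const, smul_eq_mul, mul_one,
      ← card_filter] at e1
    have e2 : (facesK T up wi ∅ 2).card ≤ T.card.choose 2 := by
      rw [← card_powersetCard]
      exact card_le_card (filter_subset _ _)
    have e3 : ((facets T up wi).filter fun S => (Ng up wi c S).card = 3).card ≤
        (T.filter fun p => ¬ Ext T p).card := by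
      apply card_le_card_of_forall_subsingleton (fun S v => S \ Ng up wi c S = {v})
      · intro S hS
        obtain ⟨hS, h3⟩ := mem_filter.1 hS
        rw [mem_facets] at hS
        have h5 := card_sdiff_add_card_eq_card (Ng_subset (u := up) (w := wi) (c := c) S)
        rw [hS.card_eq hs, h3] at h5
        obtain ⟨v, hv⟩ := card_eq_one.1 (by omega : (S \ Ng up wi c S).card = 1)
        have hvS : v ∈ S \ Ng up wi c S := hv ▸ mem_singleton_self v
        refine ⟨v, mem_filter.2 ⟨hS.1.1 (mem_sdiff.1 hvS).1, ?_⟩, hv⟩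
        rintro ⟨D, hD, hDv, hpos⟩
        have hnn : ∀ q ∈ T, 0 ≤ D (up q) := fun q hq => by
          by_cases hqv : q = v
          · rw [hqv, hDv]
          · exact (hpos q hq hqv).le
        have e := expand hs.fin hs.dim hS.2 (hS.card_eq hs) D hD c
        have h1 : 0 < D c := by
          rw [hval]
          obtain ⟨q, hq, hqv⟩ := exists_mem_ne (by omega : 1 < T.card) v
          exact sum_pos' (fun q hq => mul_nonneg (hμ q hq).le (hnn q hq))
            ⟨q, hq, mul_pos (hμ q hq) (hpos q hq hqv)⟩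
        have h2 : ∑ p ∈ S, D (up p) * co up wi S p c ≤ 0 := sum_nonpos fun p hp => by
          by_cases hpv : p = v
          · rw [hpv, hDv, zero_mul]
          · have : p ∈ Ng up wi c S := by
              by_contra hn
              exact hpv (mem_singleton.1 (hv ▸ mem_sdiff.2 ⟨hp, hn⟩))
            exact mul_nonpos_of_nonneg_of_nonpos (hnn p (hS.1.1 hp)) (mem_filter.1 this).2.le
        linarith
      · rintro v - S ⟨hS, hv⟩ S' ⟨hS', hv'⟩
        have hS := mem_facets.1 (mem_filter.1 hS).1
        have hS' := mem_facets.1 (mem_filter.1 hS').1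
        refine facet_unique (c := -c) (G := {v}) hs hS hS'
          (fun p hp => by simpa using hS'.co_ne hs ho hp) (hv ▸ sdiff_subset)
          (hv' ▸ sdiff_subset) ?_ ?_
        · rw [hS.Ng_neg hs ho, hv]
        · rw [hS'.Ng_neg hs ho, hv']
    have e4 := card_filter_add_card_filter_not (s := T) (Ext T)
    omega

/-- lifted points together with the point at infinity -/
noncomputable def up' (o : Option P) : E5 := o.elim wi up

theorem Adm.gp (h : Adm T) (h4 : ∀ S ⊆ T, S.card = 4 → Spans up wi S) :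
    GP (insertNone T) up' := by
  refine ⟨inferInstance, finrank_E5, fun G hG φ hφ hz => ?_, by
    rw [card_insertNone]; have := h.four; omega⟩
  have hsub : eraseNone G ⊆ T := fun p hp => some_mem_insertNone.1 (hG (mem_eraseNone.1 hp))
  have hz' : ∀ p ∈ eraseNone G, φ (up p) = 0 := fun p hp => hz _ (mem_eraseNone.1 hp)
  by_cases h0 : φ wi = 0
  · have : (eraseNone G).card ≤ 3 := by
      by_contra hn
      obtain ⟨S, hS, hc⟩ := exists_subset_card_eq (n := 4) (s := eraseNone G) (by omega)
      exact hφ (h4 S (hS.trans hsub) hc φ h0 fun p hp => hz' p (hS hp))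
    rw [card_eraseNone_eq_card_erase] at this
    have := pred_card_le_card_erase (s := G) (a := none)
    omega
  · have hn : none ∉ G := fun hx => h0 (hz _ hx)
    rw [← card_eraseNone_of_not_mem hn]
    exact h.le _ hsub ((φ wi)⁻¹ • φ) (by simp [h0]) fun p hp => by simp [hz' p hp]

theorem Adm.lower_gp (h : Adm T) (h4 : ∀ S ⊆ T, S.card = 4 → Spans up wi S) :
    3 * T.card ≤ (facets T up wi).card + 2 * (T.filter (Ext T)).card + 3 := by
  have g := h.gp h4
  have hs := g.simple
  set V := insertNone T with hV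
  have hall : ∀ o ∈ V, Face V up' (ws V up') {o} := by
    intro o ho
    rw [g.face_iff]
    refine ⟨singleton_subset_iff.2 ho, ?_⟩
    rcases o with _ | p
    · refine ⟨mkf 1 0 0, fun h0 => ?_, fun o _ => ?_, fun o ho => ?_⟩
      · have := LinearMap.congr_fun h0 (up 0)
        simp [mkf_up] at this
      · rcases o with _ | q
        · simp [up', mkf_wi]
        · simp [up', mkf_up]
      · rw [mem_singleton.1 ho]; simp [up', mkf_wi]
    · obtain ⟨φ, hφ, hk⟩ := sphere_fn p 0
      refine ⟨φ, fun h0 => by simp [h0] at hφ, fun o _ => ?_, fun o ho => ?_⟩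
      · rcases o with _ | q
        · simp [up', hφ]
        · simp [up', hk]
      · rw [mem_singleton.1 ho]; simp [up', hk]
  have l1 := g.lbt hall
  rw [card_insertNone] at l1
  have l2 := (g.link (hall none none_mem_insertNone)).2
  have l3 := card_filter_add_card_filter_not (s := facets V up' (ws V up')) ({none} ⊆ ·)
  have l4 : ((facets V up' (ws V up')).filter fun S => ¬ {none} ⊆ S).card ≤
      (facets T up wi).card := by
    apply card_le_card_of_injOn eraseNone
    · intro S hS
      obtain ⟨hS, hn⟩ := mem_filter.1 (mem_coe.1 hS)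
      rw [singleton_subset_iff] at hn
      rw [mem_facets] at hS
      have hpos := hS.fn_pos hs none_mem_insertNone hn
      have hsub : eraseNone S ⊆ T := fun p hp => some_mem_insertNone.1 (hS.1.1 (mem_eraseNone.1 hp))
      set φ := fn V up' (ws V up') S
      have hw : 0 < φ wi := hpos
      refine mem_coe.2 (mem_facets.2 ⟨⟨hsub, (φ wi)⁻¹ • φ, ⟨by simp [hw.ne'], fun p hp => ?_⟩,
        fun p hp => ?_⟩, h4 _ hsub (by rw [card_eraseNone_of_not_mem hn, hS.card_eq hs])⟩)
      · have : 0 ≤ φ (up p) := hS.1.fn_feas.2 (some p) (some_mem_insertNone.2 hp)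
        simp only [LinearMap.smul_apply, smul_eq_mul]
        positivity
      · have : φ (up p) = 0 := hS.1.fn_zero (some p) (mem_eraseNone.1 hp)
        simp [this]
    · intro S hS S' hS' hSS
      have hn := (mem_filter.1 (mem_coe.1 hS)).2
      have hn' := (mem_filter.1 (mem_coe.1 hS')).2
      rw [singleton_subset_iff] at hn hn'
      ext o
      rcases o with _ | p
      · simp [hn, hn']
      · rw [← mem_eraseNone, ← mem_eraseNone, hSS]
  have l5 : (nb V up' (ws V up') none).card ≤ (T.filter (Ext T)).card := by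
    have : nb V up' (ws V up') none ⊆ (T.filter (Ext T)).image some := by
      intro o ho
      obtain ⟨ho1, ho2⟩ := mem_filter.1 ho
      obtain ⟨ho3, ho4⟩ := mem_erase.1 ho1
      rcases o with _ | p
      · exact absurd rfl ho3
      obtain ⟨c, hc, -⟩ := g.exists_obj
      obtain ⟨S, hS, hsub, -⟩ := ho2.exists_facet hs hc
      obtain ⟨φ, -, hz, hpos⟩ := hS.exact hs hsub
      refine mem_image.2 ⟨p, mem_filter.2 ⟨some_mem_insertNone.1 ho4, φ, hz none (by simp),
        hz (some p) (by simp), fun q hq hqp => ?_⟩, rfl⟩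
      exact hpos (some q) (some_mem_insertNone.2 hq) (by simp [hqp])
    exact (card_le_card this).trans card_image_le
  omega

end Pool.Agent.Lib.MP_68998a_co
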