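import Pool.Agent.Lib.MP_68998a_co.Geom

/-! Inserting a point into a configuration. -/

namespace Pool.Agent.Lib.MP_68998a_co

open Module Finset Filter Topology
open scoped Classical RealInnerProductSpace

/-- four points always span -/
def NFC (T : Finset P) : Prop := ∀ S ⊆ T, S.card = 4 → Spans up wi S

/-- tangent vector of the lifting map -/
noncomputable def tg (y : P) : P →ₗ[ℝ] E5 where
  toFun v := (0, v, 2 * ⟪y, v⟫)
  map_add' a b := by simp [inner_add_right, mul_add]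
  map_smul' s a := by simp [inner_smul_right]; ring

theorem up_add (y v : P) : up (y + v) = up y + tg y v + ‖v‖ ^ 2 • wi := by
  simp only [up, tg, wi, LinearMap.coe_mk, AddHom.coe_mk, Prod.mk_add_mk, Prod.smul_mk,
    smul_zero, add_zero, smul_eq_mul, mul_one, mul_zero, norm_add_sq_real]

theorem fn_line (φ : Dual ℝ E5) (y v : P) (s : ℝ) :
    φ (up (y + s • v)) = φ (up y) + s * φ (tg y v) + s ^ 2 * (‖v‖ ^ 2 * φ wi) := by
  rw [up_add, map_add, map_add, map_smul, map_smul, map_smul, norm_smul, mul_pow, Real.norm_eq_abs,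
    sq_abs]
  simp only [smul_eq_mul]
  ring

theorem fn_tg (φ : Dual ℝ E5) (y k : P) :
    φ (tg y (k - y)) = φ (up k) - φ (up y) - ‖k - y‖ ^ 2 * φ wi := by
  have := fn_line φ y (k - y) 1
  rw [one_smul, add_sub_cancel] at this
  linarith

theorem ev_ne {A B C : ℝ} (h : A ≠ 0 ∨ B ≠ 0 ∨ C ≠ 0) :
    ∀ᶠ s in 𝓝[>] (0 : ℝ), A + s * B + s ^ 2 * C ≠ 0 := by
  by_cases hA : A = 0
  · subst hA
    by_cases hB : B = 0
    · subst hB
      have hC : C ≠ 0 := by simpa using h
      filter_upwards [self_mem_nhdsWithin] with s hs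
      have : s ≠ 0 := ne_of_gt hs
      simp [this, hC]
    · have hc : Continuous fun s : ℝ => B + s * C := by fun_prop
      have := (hc.continuousAt (x := 0)).eventually_ne (y := 0) (by simpa using hB)
      filter_upwards [self_mem_nhdsWithin, this.filter_mono nhdsWithin_le_nhds] with s hs h1
      have h2 : s ≠ 0 := ne_of_gt hs
      have : 0 + s * B + s ^ 2 * C = s * (B + s * C) := by ring
      rw [this]
      exact mul_ne_zero h2 h1
  · have hc : Continuous fun s : ℝ => A + s * B + s ^ 2 * C := by fun_prop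
    exact ((hc.continuousAt (x := 0)).eventually_ne (y := 0) (by simpa using hA)).filter_mono
      nhdsWithin_le_nhds

theorem ev_pos {φ : Dual ℝ E5} {y v : P} (h : 0 < φ (up y) ∨ (φ (up y) = 0 ∧ 0 < φ (tg y v))) :
    ∀ᶠ s in 𝓝[>] (0 : ℝ), 0 < φ (up (y + s • v)) := by
  simp only [fn_line]
  rcases h with h | ⟨h0, h⟩
  · have hc : Continuous fun s : ℝ => φ (up y) + s * φ (tg y v) + s ^ 2 * (‖v‖ ^ 2 * φ wi) := by
      fun_prop
    exact ((hc.continuousAt (x := 0)).eventually (lt_mem_nhds (by simpa using h))).filter_mono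
      nhdsWithin_le_nhds
  · have hc : Continuous fun s : ℝ => φ (tg y v) + s * (‖v‖ ^ 2 * φ wi) := by fun_prop
    have := (hc.continuousAt (x := 0)).eventually (lt_mem_nhds (by simpa using h))
    filter_upwards [self_mem_nhdsWithin, this.filter_mono nhdsWithin_le_nhds] with s hs h1
    have := mul_pos (show 0 < s from hs) h1
    rw [h0]
    nlinarith

theorem dense_ne {φ : Dual ℝ E5} (h : φ ≠ 0) : Dense {y : P | φ (up y) ≠ 0} := by
  intro y
  obtain ⟨v, hv⟩ : ∃ v : P, φ (up y) ≠ 0 ∨ φ (tg y v) ≠ 0 ∨ ‖v‖ ^ 2 * φ wi ≠ 0 := by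
    by_contra hn
    push Not at hn
    obtain ⟨b, a, g, rfl⟩ := exists_mkf φ
    have hg : g = 0 := by
      have := (hn (EuclideanSpace.single 0 1)).2.2
      simpa [mkf_wi] using this
    have ha : a = 0 := by
      have := (hn a).2.1
      simpa [mkf_apply, tg, hg] using this
    have hb : b = 0 := by
      have := (hn a).1
      simpa [mkf_up, ha, hg] using this
    exact h (mkf_eq_zero hb ha hg)
  have ht : Tendsto (fun s : ℝ => y + s • v) (𝓝[>] 0) (𝓝 y) := by
    have hc : Continuous fun s : ℝ => y + s • v := by fun_prop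
    have := hc.tendsto 0
    rw [zero_smul, add_zero] at this
    exact this.mono_left nhdsWithin_le_nhds
  apply mem_closure_of_tendsto ht
  filter_upwards [ev_ne hv] with s hs
  rwa [fn_line]

theorem avoid {ι : Type*} (I : Finset ι) (f : ι → Dual ℝ E5) (hf : ∀ i ∈ I, f i ≠ 0) {U : Set P}
    (hU : IsOpen U) (hne : U.Nonempty) : ∃ y ∈ U, ∀ i ∈ I, f i (up y) ≠ 0 := by
  have hd : Dense (⋂ i ∈ (I : Set ι), {y : P | f i (up y) ≠ 0}) :=
    dense_biInter_of_isOpen (fun i _ => isOpen_ne_fun (continuous_up _) continuous_const)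
      I.countable_toSet fun i hi => dense_ne (hf i hi)
  obtain ⟨y, hy1, hy2⟩ := hd.inter_open_nonempty U hU hne
  exact ⟨y, hy1, by simpa using hy2⟩

theorem isOpen_pos {ι : Type*} (I : Finset ι) (f : ι → Dual ℝ E5) :
    IsOpen {y : P | ∀ i ∈ I, 0 < f i (up y)} := by
  have : {y : P | ∀ i ∈ I, 0 < f i (up y)} = ⋂ i ∈ I, {y : P | 0 < f i (up y)} := by
    ext y; simp
  rw [this]
  exact isOpen_biInter_finset fun i _ => isOpen_lt continuous_const (continuous_up _)

variable {T : Finset P}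

/-- four points of an admissible set lie on at most one sphere -/
theorem Adm.sphere_unique (h : Adm T) {S : Finset P} (hS : S ⊆ T) (hc : S.card = 4)
    {φ ψ : Dual ℝ E5} (hφ : φ wi = 1) (hψ : ψ wi = 1) (hφz : ∀ p ∈ S, φ (up p) = 0)
    (hψz : ∀ p ∈ S, ψ (up p) = 0) : φ = ψ := by
  by_contra hne
  obtain ⟨p, hp, hp0⟩ : ∃ p ∈ T, (φ - ψ) (up p) ≠ 0 := by
    by_contra hn
    push Not at hn
    exact hne (sub_eq_zero.1 (h.sp _ (by simp [hφ, hψ]) hn))
  have hpS : p ∉ S := fun hx => hp0 (by simp [hφz p hx, hψz p hx])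
  have := h.le (insert p S) (insert_subset hp hS)
    (φ - (φ (up p) / (φ - ψ) (up p)) • (φ - ψ)) (by simp [hφ, hψ]) fun q hq => by
      rcases mem_insert.1 hq with rfl | hq
      · rw [LinearMap.sub_apply, LinearMap.smul_apply, smul_eq_mul, div_mul_cancel₀ _ hp0, sub_self]
      · simp [hφz q hq, hψz q hq]
  rw [card_insert_of_notMem hpS] at this
  omega

/-- the sphere through four points, when there is one -/
theorem Adm.exists_sph (h : Adm T) : ∃ f : Finset P → Dual ℝ E5, (∀ S, f S wi = 1) ∧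
    (∀ p, f {p} (up p) = 0) ∧
    ∀ S ⊆ T, S.card = 4 → ∀ φ : Dual ℝ E5, φ wi = 1 → (∀ p ∈ S, φ (up p) = 0) → φ = f S := by
  have h1 : ∀ S : Finset P, ∃ ψ : Dual ℝ E5, ψ wi = 1 ∧
      ((∃ φ : Dual ℝ E5, φ wi = 1 ∧ ∀ p ∈ S, φ (up p) = 0) → ∀ p ∈ S, ψ (up p) = 0) := by
    intro S
    by_cases hx : ∃ φ : Dual ℝ E5, φ wi = 1 ∧ ∀ p ∈ S, φ (up p) = 0
    · obtain ⟨φ, h1, h2⟩ := hx
      exact ⟨φ, h1, fun _ => h2⟩
    · exact ⟨mkf 0 0 1, mkf_wi _ _ _, fun h => absurd h hx⟩
  choose f hf1 hf2 using h1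
  refine ⟨f, hf1, fun p => ?_, fun S hS hc φ hφ hz =>
    h.sphere_unique hS hc hφ (hf1 S) hz (hf2 S ⟨φ, hφ, hz⟩)⟩
  obtain ⟨φ, hφ, hk⟩ := sphere_fn p 0
  exact hf2 {p} ⟨φ, hφ, fun q hq => by rw [mem_singleton.1 hq, hk]; simp⟩ p (mem_singleton_self p)

theorem Adm.insert_of (h : Adm T) {f : Finset P → Dual ℝ E5} (h1 : ∀ p, f {p} (up p) = 0)
    (h2 : ∀ S ⊆ T, S.card = 4 → ∀ φ : Dual ℝ E5, φ wi = 1 → (∀ p ∈ S, φ (up p) = 0) → φ = f S)
    {y : P} (hy : ∀ S ∈ T.powerset, f S (up y) ≠ 0) : y ∉ T ∧ Adm (insert y T) := by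
  refine ⟨fun hyT => hy {y} (mem_powerset.2 (singleton_subset_iff.2 hyT)) (h1 y),
    h.sp.mono (subset_insert _ _), fun S hS φ hφ hz => ?_⟩
  have hsub : S.erase y ⊆ T := fun p hp =>
    (mem_insert.1 (hS (mem_erase.1 hp).2)).resolve_left (mem_erase.1 hp).1
  have hz' : ∀ p ∈ S.erase y, φ (up p) = 0 := fun p hp => hz p (mem_erase.1 hp).2
  have h3 := h.le _ hsub φ hφ hz'
  by_cases hyS : y ∈ S
  · have h4 : (S.erase y).card ≠ 4 := fun h4 =>
      hy _ (mem_powerset.2 hsub) (h2 _ hsub h4 φ hφ hz' ▸ hz y hyS)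
    rw [card_erase_of_mem hyS] at h3 h4
    omega
  · rwa [erase_eq_of_notMem hyS] at h3

theorem spans_isCo {S : Finset P} (h : Spans up wi S) (hc : S.card = 4) {p : P} (hp : p ∈ S) :
    IsCo up wi S p (co up wi S p) := isCo_co inferInstance finrank_E5 h hc hp

theorem spans_expand {S : Finset P} (h : Spans up wi S) (hc : S.card = 4) (D : Dual ℝ E5)
    (hD : D wi = 0) (x : E5) : D x = ∑ p ∈ S, D (up p) * co up wi S p x :=
  expand inferInstance finrank_E5 h hc D hD x

theorem spans_single {S : Finset P} (h : Spans up wi S) (hc : S.card = 4) {p : P} (hp : p ∈ S)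
    (D : Dual ℝ E5) (hD : D wi = 0) (hz : ∀ q ∈ S.erase p, D (up q) = 0) (x : E5) :
    D x = D (up p) * co up wi S p x := by
  rw [spans_expand h hc D hD x, sum_eq_single p]
  · intro q hq hqp
    rw [hz q (mem_erase.2 ⟨hqp, hq⟩), zero_mul]
  · intro hn; exact absurd hp hn

theorem spans_swap {S : Finset P} (h : Spans up wi S) (hc : S.card = 4) {p : P} (hp : p ∈ S)
    {y : P} (hy : co up wi S p (up y) ≠ 0) : Spans up wi (insert y (S.erase p)) := by
  intro D hD hz
  have hz' : ∀ q ∈ S.erase p, D (up q) = 0 := fun q hq => hz q (mem_insert_of_mem hq)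
  have h1 := spans_single h hc hp D hD hz' (up y)
  rw [hz y (mem_insert_self _ _)] at h1
  have h2 : D (up p) = 0 := (mul_eq_zero.1 h1.symm).resolve_right hy
  apply h D hD
  intro q hq
  by_cases hqp : q = p
  · rw [hqp, h2]
  · exact hz' q (mem_erase.2 ⟨hqp, hq⟩)

/-- a generic point in an open set -/
theorem Adm.extend (h : Adm T) (h4 : NFC T) {U : Set P} (hU : IsOpen U) (hne : U.Nonempty) :
    ∃ y ∈ U, y ∉ T ∧ Adm (insert y T) ∧ NFC (insert y T) := by
  obtain ⟨f, hf0, hf1, hf2⟩ := h.exists_sph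
  have h1 : ∀ F : Finset P, ∃ D : Dual ℝ E5, D ≠ 0 ∧
      (F ⊆ T → F.card = 3 → ∀ y, D (up y) ≠ 0 → Spans up wi (insert y F)) := by
    intro F
    by_cases hF : F ⊆ T ∧ F.card = 3
    · obtain ⟨p, hp, hpF⟩ : ∃ p ∈ T, p ∉ F := by
        by_contra hn
        push Not at hn
        have := card_le_card (show T ⊆ F from hn)
        have := h.four
        omega
      have hc : (insert p F).card = 4 := by rw [card_insert_of_notMem hpF, hF.2]
      have hsp := h4 _ (insert_subset hp hF.1) hc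
      refine ⟨co up wi (insert p F) p, fun h0 => ?_, fun _ _ y hy => ?_⟩
      · have := (spans_isCo hsp hc (mem_insert_self p F)).2.1
        simp [h0] at this
      · have := spans_swap hsp hc (mem_insert_self p F) hy
        rwa [erase_insert hpF] at this
    · exact ⟨f F, fun h0 => by simpa [h0] using hf0 F, fun h1 h2 => absurd ⟨h1, h2⟩ hF⟩
  choose g hg0 hg using h1
  obtain ⟨y, hyU, hy⟩ := avoid (T.powerset ×ˢ (univ : Finset Bool))
    (fun x => if x.2 then f x.1 else g x.1) (fun x _ => by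
      split_ifs
      · exact fun h0 => by simpa [h0] using hf0 x.1
      · exact hg0 _) hU hne
  obtain ⟨hyT, hA⟩ := h.insert_of hf1 hf2 (y := y) fun S hS => by
    simpa using hy (S, true) (mem_product.2 ⟨hS, mem_univ _⟩)
  refine ⟨y, hyU, hyT, hA, fun S hS hc => ?_⟩
  have hsub : S.erase y ⊆ T := fun p hp =>
    (mem_insert.1 (hS (mem_erase.1 hp).2)).resolve_left (mem_erase.1 hp).1
  by_cases hyS : y ∈ S
  · have := hg _ hsub (by rw [card_erase_of_mem hyS, hc]) y (by
      simpa using hy (S.erase y, false) (mem_product.2 ⟨mem_powerset.2 hsub, mem_univ _⟩))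
    rwa [insert_erase hyS] at this
  · rw [erase_eq_of_notMem hyS] at hsub
    exact h4 S hsub hc

/-- a generic point near a given point, in a given tangent cone -/
theorem Adm.extend_near (h : Adm T) (h4 : NFC T) (y v : P) {ι : Type*} (I : Finset ι)
    (f : ι → Dual ℝ E5)
    (hf : ∀ i ∈ I, 0 < f i (up y) ∨ (f i (up y) = 0 ∧ 0 < f i (tg y v))) :
    ∃ z, (∀ i ∈ I, 0 < f i (up z)) ∧ z ∉ T ∧ Adm (insert z T) ∧ NFC (insert z T) := by
  obtain ⟨s, hs⟩ := ((eventually_all_finset I).2 fun i hi => ev_pos (hf i hi)).exists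
  exact h.extend h4 (isOpen_pos I f) ⟨_, hs⟩

theorem old_facet {y : P} {S : Finset P} (hS : Facet (insert y T) up wi S) (hy : y ∉ S) :
    Facet T up wi S ∧ 0 ≤ fn T up wi S (up y) := by
  obtain ⟨⟨hsub, φ, hφ, hz⟩, hsp⟩ := hS
  have h1 : Facet T up wi S := ⟨⟨fun p hp => (mem_insert.1 (hsub hp)).resolve_left
    fun e => hy (e ▸ hp), φ, ⟨hφ.1, fun p hp => hφ.2 p (mem_insert_of_mem hp)⟩, hz⟩, hsp⟩
  refine ⟨h1, ?_⟩
  rw [h1.fn_eq hφ.1 hz]
  exact hφ.2 y (mem_insert_self _ _)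

theorem new_face {y : P} {S : Finset P} (hS : Facet (insert y T) up wi S) :
    Face T up wi (S.erase y) := by
  obtain ⟨⟨hsub, φ, hφ, hz⟩, -⟩ := hS
  exact ⟨fun p hp => (mem_insert.1 (hsub (mem_erase.1 hp).2)).resolve_left (mem_erase.1 hp).1,
    φ, ⟨hφ.1, fun p hp => hφ.2 p (mem_insert_of_mem hp)⟩, fun p hp => hz p (mem_erase.1 hp).2⟩

theorem new_facet {y : P} (h' : Adm (insert y T)) (hyT : y ∉ T) {S : Finset P}
    (hS : Facet (insert y T) up wi S) (hy : y ∈ S) :
    (∃ S', Facet T up wi S' ∧ S.erase y ⊆ S' ∧ fn T up wi S' (up y) < 0) ∨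
    ∃ D : Dual ℝ E5, D wi = 0 ∧ (∀ p ∈ T, 0 ≤ D (up p)) ∧ (∀ p ∈ S.erase y, D (up p) = 0) ∧
      D (up y) < 0 := by
  have hs' := h'.simple
  obtain ⟨c1, c2, c3⟩ := hS.isCo hs' hy
  set D := co up wi S y with hD
  have hDz : ∀ p ∈ S.erase y, D (up p) = 0 := fun p hp =>
    c3 p (mem_erase.1 hp).2 (mem_erase.1 hp).1
  by_cases hex : ∃ p ∈ T, (-D) (up p) < 0
  · left
    set φ := fn (insert y T) up wi S with hφ
    have hfe : Feas T up wi φ :=
      ⟨hS.1.fn_feas.1, fun p hp => hS.1.fn_feas.2 p (mem_insert_of_mem hp)⟩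
    obtain ⟨s, hs0, hfe', p, hpT, hpD, hp0⟩ := ratio hfe (D := -D) (by simp [c1]) hex
    have hpD' : 0 < D (up p) := by simpa using hpD
    have hpS : p ∉ S := fun hx => by
      have := c3 p hx fun e => hyT (e ▸ hpT)
      linarith
    have hpos : 0 < φ (up p) := hS.fn_pos hs' (mem_insert_of_mem hpT) hpS
    have hs1 : 0 < s := by
      rcases hs0.eq_or_lt with rfl | h1
      · simp at hp0; linarith
      · exact h1
    have hz : ∀ q ∈ insert p (S.erase y), (φ + s • -D) (up q) = 0 := by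
      intro q hq
      rcases mem_insert.1 hq with rfl | hq
      · exact hp0
      · have : φ (up q) = 0 := hS.1.fn_zero q (mem_erase.1 hq).2
        simp [this, hDz q hq]
    have hF : Facet T up wi (insert p (S.erase y)) :=
      ⟨⟨insert_subset hpT (new_face hS).1, _, hfe', hz⟩,
        spans_swap hS.2 (hS.card_eq hs') hy hpD'.ne'⟩
    refine ⟨_, hF, subset_insert _ _, ?_⟩
    rw [hF.fn_eq hfe'.1 hz]
    have : φ (up y) = 0 := hS.1.fn_zero y hy
    simp [this, c2, hs1]
  · right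
    push Not at hex
    exact ⟨-D, by simp [c1], hex, fun p hp => by simp [hDz p hp], by simp [c2]⟩

theorem count_insert (y : P) : (facets (insert y T) up wi).card ≤
    ((facets T up wi).filter fun S => 0 ≤ fn T up wi S (up y)).card +
      ((facets (insert y T) up wi).filter (y ∈ ·)).card := by
  have h1 := card_filter_add_card_filter_not (s := facets (insert y T) up wi) (y ∈ ·)
  have h2 : ((facets (insert y T) up wi).filter fun S => ¬ y ∈ S) ⊆
      (facets T up wi).filter fun S => 0 ≤ fn T up wi S (up y) := by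
    intro S hS
    obtain ⟨h3, h4⟩ := mem_filter.1 hS
    obtain ⟨h5, h6⟩ := old_facet (mem_facets.1 h3) h4
    exact mem_filter.2 ⟨mem_facets.2 h5, h6⟩
  have := card_le_card h2
  omega

theorem Adm.face_facet (h : Adm T) {G : Finset P} (hG : Face T up wi G) :
    ∃ S, Facet T up wi S ∧ G ⊆ S := by
  obtain ⟨μ, -, ho⟩ := exists_obj h.sp
  obtain ⟨S, h1, h2, -⟩ := hG.exists_facet h.simple ho
  exact ⟨S, h1, h2⟩

theorem ext_insert {y : P} (hyT : y ∉ T) {K : Finset P} (hK : K ⊆ T) (h2 : 1 < K.card)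
    (l : P → ℝ) (hl : ∀ k ∈ K, 0 < l k)
    (he : ∀ D : Dual ℝ E5, D wi = 0 → D (up y) = ∑ k ∈ K, D (up k) * l k) :
    (insert y T).filter (Ext (insert y T)) = T.filter (Ext T) := by
  ext p
  simp only [mem_filter, mem_insert]
  constructor
  · rintro ⟨hp, D, hD, hp0, hpos⟩
    rcases hp with rfl | hp
    · exfalso
      have h3 := he D hD
      have h4 : 0 < ∑ k ∈ K, D (up k) * l k := sum_pos (fun k hk =>
        mul_pos (hpos k (mem_insert_of_mem (hK hk)) fun e => hyT (e ▸ hK hk)) (hl k hk))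
        (card_pos.1 (by omega))
      linarith
    · exact ⟨hp, D, hD, hp0, fun q hq => hpos q (mem_insert_of_mem hq)⟩
  · rintro ⟨hp, D, hD, hp0, hpos⟩
    refine ⟨Or.inr hp, D, hD, hp0, fun q hq hqp => ?_⟩
    rcases mem_insert.1 hq with rfl | hq
    · rw [he D hD]
      obtain ⟨k, hk, hkp⟩ := exists_mem_ne h2 p
      refine sum_pos' (fun j hj => mul_nonneg ?_ (hl j hj).le)
        ⟨k, hk, mul_pos (hpos k (hK hk) hkp) (hl k hk)⟩
      by_cases hjp : j = p
      · rw [hjp, hp0]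
      · exact (hpos j (hK hj) hjp).le
    · exact hpos q hq hqp

end Pool.Agent.Lib.MP_68998a_co
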